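import Mathlib
import Pool.Agent.Lib.Common.Forcing.Defs

set_option autoImplicit false

namespace Pool.Agent.Lib.MP_60e7f9_lc

open Set Filter MeasureTheory Cardinal

/-- The product of the sets `b k = {0, ..., b k - 1}`. -/
def Prd (b : ℕ → ℕ) : Set (ℕ → ℕ) := {f | ∀ k, f k < b k}

/-- `i` lists the left endpoints of a partition of `ω` into finite nonempty intervals
`I n = [i n, i (n + 1))`. -/
def IsPart (i : ℕ → ℕ) : Prop := i 0 = 0 ∧ StrictMono i

/-- The relation between `f` and `(I, h)`: almost every `I n` has a point where `f` equals `h`. -/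
def Rel (f i h : ℕ → ℕ) : Prop := ∀ᶠ n in atTop, ∃ k, i n ≤ k ∧ k < i (n + 1) ∧ f k = h k

/-- The cardinal `b_b^eq`. -/
noncomputable def bEq (b : ℕ → ℕ) : Cardinal.{0} :=
  sInf {c | ∃ F ⊆ Prd b, (¬ ∃ i h, IsPart i ∧ h ∈ Prd b ∧ ∀ f ∈ F, Rel f i h) ∧ #F = c}

/-- The fair coin measure on the Cantor space. -/
noncomputable def coin : Measure (ℕ → Bool) :=
  Measure.infinitePi fun _ => ProbabilityTheory.uniformOn (univ : Set Bool)

/-- The cardinal `non(E)`. -/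
noncomputable def nonE : Cardinal.{0} :=
  sInf {c | ∃ X : Set (ℕ → Bool), (¬ ∃ K : ℕ → Set (ℕ → Bool),
    (∀ n, IsClosed (K n) ∧ coin (K n) = 0) ∧ X ⊆ ⋃ n, K n) ∧ #X = c}

/-- The von Neumann numeral. -/
noncomputable def num (n : ℕ) : ZFSet.{0} := (n : Ordinal.{0}).toZFSet

/-- A function from `ω` to `ω` as a set of ordered pairs. -/
noncomputable def code (f : ℕ → ℕ) : ZFSet.{0} :=
  ZFSet.range fun k : ℕ => ZFSet.pair (num k) (num (f k))

/-- A point of the Cantor space as a function to `{0, 1}`. -/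
def bin (x : ℕ → Bool) : ℕ → ℕ := fun k => (x k).toNat

/-- The set `F` of functions is an element of `M`. -/
def SetIn (M : ZFSet.{0}) (F : Set (ℕ → ℕ)) : Prop :=
  ∃ z ∈ M, ∀ y, y ∈ z ↔ ∃ f ∈ F, code f = y

/-- Some injection of `X` into `F` is an element of `M`. -/
def InjIn (M : ZFSet.{0}) (X F : Set (ℕ → ℕ)) : Prop :=
  ∃ g ∈ M, ∃ φ : (ℕ → ℕ) → ℕ → ℕ, MapsTo φ X F ∧ InjOn φ X ∧
    ∀ y, y ∈ g ↔ ∃ x ∈ X, ZFSet.pair (code x) (code (φ x)) = y

/-- The `n`-th closed set coded by `c`: the branches of the `n`-th set of binary strings. -/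
def cls (c : ℕ → ℕ) (n : ℕ) : Set (ℕ → Bool) :=
  {x | ∀ l, c (Nat.pair n (Encodable.encode (List.ofFn fun i : Fin l => x i))) = 0}

/-- In `M`, the set `X` is covered by countably many closed null sets. -/
def InE (M : ZFSet.{0}) (X : Set (ℕ → Bool)) : Prop :=
  ∃ c, code c ∈ M ∧ (∀ n, coin (cls c n) = 0) ∧ X ⊆ ⋃ n, cls c n

/-- In `M`, `b_b^eq < non(E)`: some family `F` in `M` of elements of the product is unbounded in
`M`, and no set of `M` outside `E` has an injection into `F` in `M`. -/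
def BeqLtNonE (M : ZFSet.{0}) (b : ℕ → ℕ) : Prop :=
  ∃ F ⊆ Prd b, SetIn M F ∧
    (¬ ∃ i h, code i ∈ M ∧ code h ∈ M ∧ IsPart i ∧ h ∈ Prd b ∧ ∀ f ∈ F, Rel f i h) ∧
    ∀ X : Set (ℕ → Bool), SetIn M (bin '' X) → ¬ InE M X → ¬ InjIn M (bin '' X) F

end Pool.Agent.Lib.MP_60e7f9_lc
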