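import Mathlib
import Pool.Agent.Lib.MP_60e7f9_lc.Defs

/-!
Facts on the fair coin measure.
-/

set_option autoImplicit false

namespace Pool.Agent.Lib.MP_60e7f9_lc

open Set Filter MeasureTheory

instance : IsProbabilityMeasure coin := by unfold coin; infer_instance

open Classical in
/-- Flipping the coordinates in `T`. -/
noncomputable def flp (T : Set ℕ) (x : ℕ → Bool) : ℕ → Bool :=
  fun k => if k ∈ T then !x k else x k

theorem continuous_flp (T : Set ℕ) : Continuous (flp T) := by
  refine continuous_pi fun k => ?_
  by_cases h : k ∈ T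
  · simp only [flp, if_pos h]
    exact (continuous_of_discreteTopology (f := not)).comp (continuous_apply k)
  · simp only [flp, if_neg h]
    exact continuous_apply k

theorem map_not : (ProbabilityTheory.uniformOn (univ : Set Bool)).map not =
    ProbabilityTheory.uniformOn univ := by
  refine Measure.ext_of_singleton fun b => ?_
  rw [Measure.map_apply (measurable_of_countable _) (measurableSet_singleton _)]
  have : not ⁻¹' {b} = {!b} := by ext c; cases b <;> cases c <;> simp
  rw [this, ProbabilityTheory.uniformOn_univ, ProbabilityTheory.uniformOn_univ]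
  simp

theorem mp_flp (T : Set ℕ) : MeasurePreserving (flp T) coin coin := by
  classical
  refine ⟨(continuous_flp T).measurable, ?_⟩
  have := Measure.infinitePi_map_pi (fun _ : ℕ => ProbabilityTheory.uniformOn (univ : Set Bool))
    (f := fun k b => if k ∈ T then !b else b) fun _ => measurable_of_countable _
  refine Eq.trans ?_ (this.trans ?_)
  · rfl
  · unfold coin
    congr 1
    funext k
    by_cases h : k ∈ T
    · simp only [if_pos h]; exact map_not
    · simp only [if_neg h]; exact Measure.map_id

theorem null_pairs {m n : ℕ → ℕ} {N : ℕ} (h : ∀ j ≥ N, j ≤ m j ∧ m j < n j) :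
    coin {x | ∀ j ≥ N, x (m j) = x (n j)} = 0 := by
  let s : ℕ → ℕ := fun t => Nat.rec N (fun _ j => n j + 1) t
  have hs : ∀ t, N ≤ s t := by
    intro t
    induction t with
    | zero => exact le_rfl
    | succ t ih => have := h _ ih; show N ≤ n (s t) + 1; omega
  have hlt : ∀ t u, u < t → n (s u) < s t := by
    intro t u hu
    induction t, hu using Nat.le_induction with
    | base => exact Nat.lt_succ_self _
    | succ t _ ih => have := h _ (hs t); show _ < n (s t) + 1; omega
  let A : ℕ → Set (ℕ → Bool) := fun t => {x | ∀ u < t, x (m (s u)) = x (n (s u))}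
  have hA : ∀ t, MeasurableSet (A t) := fun t => by
    have : IsClosed (A t) := by
      simp only [A, ofPred_forall]
      exact isClosed_iInter fun u => isClosed_iInter fun _ =>
        isClosed_eq (continuous_apply _) (continuous_apply _)
    exact this.measurableSet
  have hb : ∀ t, coin (A t) ≤ 2⁻¹ ^ t := by
    intro t
    induction t with
    | zero => simpa using prob_le_one
    | succ t ih =>
      have h1 : coin (flp {n (s t)} ⁻¹' A (t + 1)) = coin (A (t + 1)) :=
        (mp_flp _).measure_preimage (hA _).nullMeasurableSet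
      have h0 := h _ (hs t)
      have h2 : Disjoint (A (t + 1)) (flp {n (s t)} ⁻¹' A (t + 1)) := by
        refine disjoint_left.2 fun x a b => ?_
        have a' := a t (Nat.lt_succ_self t)
        have b' := b t (Nat.lt_succ_self t)
        simp only [flp, mem_singleton_iff, if_neg h0.2.ne, if_true, a'] at b'
        cases hx : x (n (s t)) <;> simp [hx] at b'
      have h3 : A (t + 1) ∪ flp {n (s t)} ⁻¹' A (t + 1) ⊆ A t := by
        rintro x (a | a) u hu
        · exact a u (hu.trans (Nat.lt_succ_self t))
        · have a' := a u (hu.trans (Nat.lt_succ_self t))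
          have c1 := hlt t u hu
          have c2 := h _ (hs u)
          simp only [flp, mem_singleton_iff] at a'
          rwa [if_neg (by omega), if_neg (by omega)] at a'
      have h4 := measure_mono (μ := coin) h3
      rw [measure_union h2 ((continuous_flp _).measurable (hA _)), h1, ← two_mul] at h4
      rw [pow_succ', ← ENNReal.mul_le_mul_iff_right (a := 2) (by simp) (by simp), ← mul_assoc,
        ENNReal.mul_inv_cancel (by simp) (by simp), one_mul]
      exact h4.trans ih
  refine le_antisymm (ge_of_tendsto' (ENNReal.tendsto_pow_atTop_nhds_zero_of_lt_one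
    (r := 2⁻¹) (by simp)) fun t => le_trans (measure_mono ?_) (hb t)) bot_le
  exact fun x hx u _ => hx _ (hs u)

/-- A closed null set is avoided by prescribing a finite segment beyond any given point. -/
theorem exists_kill {K : Set (ℕ → Bool)} (hK : IsClosed K) (h0 : coin K = 0) (a : ℕ) :
    ∃ t, a ≤ t ∧ ∃ y : ℕ → Bool, ∀ x, (∀ k, a ≤ k → k < t → x k = y k) → x ∉ K := by
  let K' := ⋃ T ∈ {T : Set ℕ | T ⊆ Iio a}, flp T ⁻¹' K
  have hf : {T : Set ℕ | T ⊆ Iio a}.Finite := (finite_Iio a).finite_subsets
  have hc : IsClosed K' := hf.isClosed_biUnion fun T _ => hK.preimage (continuous_flp T)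
  have hn : coin K' = 0 := (measure_biUnion_null_iff hf.countable).2 fun T _ =>
    ((mp_flp T).measure_preimage hK.measurableSet.nullMeasurableSet).trans h0
  obtain ⟨y, hy⟩ : ∃ y, y ∉ K' := by
    by_contra hcon
    push Not at hcon
    rw [eq_univ_of_forall hcon, measure_univ] at hn
    exact one_ne_zero hn
  have := hc.isOpen_compl.mem_nhds hy
  rw [nhds_pi, Filter.mem_pi] at this
  obtain ⟨D, hD, U, hU, hsub⟩ := this
  obtain ⟨t, ht⟩ := hD.bddAbove
  refine ⟨max a (t + 1), le_max_left _ _, y, fun x hx hxK => ?_⟩
  let T : Set ℕ := {k | k < a ∧ x k ≠ y k}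
  have hinv : flp T (flp T x) = x := by
    funext k
    by_cases h : k ∈ T <;> simp [flp, h]
  refine hsub (a := flp T x) (fun k hk => ?_) (mem_biUnion (x := T) (fun k hk => hk.1) ?_)
  · have : flp T x k = y k := by
      by_cases h : k ∈ T
      · simp only [flp, if_pos h]
        have := h.2
        cases hx' : x k <;> cases hy' : y k <;> simp_all
      · simp only [flp, if_neg h]
        rcases lt_or_ge k a with h' | h'
        · by_contra hne
          exact h ⟨h', hne⟩
        · exact hx k h' (lt_max_of_lt_right (Nat.lt_succ_of_le (ht hk)))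
    rw [this]
    exact mem_of_mem_nhds (hU k)
  · rwa [mem_preimage, hinv]

theorem exists_kill_threads {K : Set (ℕ → Bool)} (hK : IsClosed K) (h0 : coin K = 0) (c : ℕ) :
    ∀ a, ∃ t, a ≤ t ∧ ∃ y : ℕ → Bool, ∀ (x : ℕ → ℕ → Bool) (r : ℕ → ℕ),
      (∀ k, a ≤ k → k < t → r k ≤ r (k + 1) ∧ x (r k) k = y k) → r t < r a + c →
      ∃ k, a ≤ k ∧ k ≤ t ∧ x (r k) ∉ K := by
  induction c with
  | zero => exact fun a => ⟨a, le_rfl, fun _ => false, fun x r _ h => absurd h (lt_irrefl _)⟩
  | succ c ih =>
    intro a
    obtain ⟨t, ht, y, hy⟩ := exists_kill hK h0 a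
    obtain ⟨t', ht', y', hy'⟩ := ih t
    refine ⟨t', ht.trans ht', fun k => if k < t then y k else y' k, fun x r h1 h2 => ?_⟩
    have hm : ∀ k l, a ≤ k → k ≤ l → l ≤ t' → r k ≤ r l := by
      intro k l hk hkl hl
      induction l, hkl using Nat.le_induction with
      | base => exact le_rfl
      | succ l hl' ih => exact (ih (by omega)).trans (h1 l (by omega) (by omega)).1
    by_cases h : r t ≤ r a
    · refine ⟨a, le_rfl, ht.trans ht', hy _ fun k hk hk' => ?_⟩
      have e : r k = r a := le_antisymm ((hm k t hk hk'.le ht').trans h) (hm a k le_rfl hk (by omega))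
      rw [← e, (h1 k hk (by omega)).2]
      exact if_pos hk'
    · obtain ⟨k, c1, c2, c3⟩ := hy' x r (fun k hk hk' => ⟨(h1 k (by omega) hk').1, by
        rw [(h1 k (by omega) hk').2]
        exact if_neg (by omega)⟩) (by omega)
      exact ⟨k, by omega, c2, c3⟩

end Pool.Agent.Lib.MP_60e7f9_lc
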