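import Mathlib
import Pool.Agent.Lib.MP_60e7f9_lc.Defs

set_option autoImplicit false

namespace Pool.Agent.Lib.MP_60e7f9_lc

open Set MeasureTheory Cardinal

/-- The cardinal `d_b^eq`. -/
noncomputable def dEq (b : ℕ → ℕ) : Cardinal.{0} :=
  sInf {c | ∃ D : Set ((ℕ → ℕ) × (ℕ → ℕ)), (∀ d ∈ D, IsPart d.1 ∧ d.2 ∈ Prd b) ∧
    (∀ f ∈ Prd b, ∃ d ∈ D, Rel f d.1 d.2) ∧ #D = c}

/-- The cardinal `cov(E)`. -/
noncomputable def covE : Cardinal.{0} :=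
  sInf {c | ∃ C : Set (Set (ℕ → Bool)), (∀ X ∈ C, ∃ K : ℕ → Set (ℕ → Bool),
    (∀ n, IsClosed (K n) ∧ coin (K n) = 0) ∧ X ⊆ ⋃ n, K n) ∧ ⋃₀ C = Set.univ ∧ #C = c}

/-- A pair of functions coded as one function. -/
def pc (d : (ℕ → ℕ) × (ℕ → ℕ)) : ℕ → ℕ := fun k => Nat.pair (d.1 k) (d.2 k)

/-- In `M`, `cov(E) < d_b^eq`: some family `C` in `M` of codes of countable unions of closed null
sets covers the reals of `M`, and no family in `M` that is dominating in `M` has an injection into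
`C` in `M`. -/
def CovLtDeq (M : ZFSet.{0}) (b : ℕ → ℕ) : Prop :=
  ∃ C : Set (ℕ → ℕ), SetIn M C ∧ (∀ c ∈ C, ∀ n, coin (cls c n) = 0) ∧
    (∀ x, code (bin x) ∈ M → ∃ c ∈ C, x ∈ ⋃ n, cls c n) ∧
    ∀ D : Set ((ℕ → ℕ) × (ℕ → ℕ)), SetIn M (pc '' D) → (∀ d ∈ D, IsPart d.1 ∧ d.2 ∈ Prd b) →
      (∀ f ∈ Prd b, code f ∈ M → ∃ d ∈ D, Rel f d.1 d.2) → ¬ InjIn M (pc '' D) C

end Pool.Agent.Lib.MP_60e7f9_lc
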