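import Mathlib
import Pool.Agent.Lib.Common.Forcing.Model
import Pool.Agent.Lib.MP_60e7f9_lc.Defs

/-!
Names for reals.
-/

set_option autoImplicit false

namespace Pool.Agent.Lib.MP_60e7f9_lc

open Set Filter Pool.Agent.Lib.Common.Forcing

variable {P : Type} [Preorder P]

theorem num_inj {k l : ℕ} (h : num k = num l) : k = l :=
  Nat.cast_injective (Ordinal.toZFSet_injective h)

theorem mem_code {f : ℕ → ℕ} {y : ZFSet.{0}} :
    y ∈ code f ↔ ∃ k, ZFSet.pair (num k) (num (f k)) = y := ZFSet.mem_range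

theorem pair_mem_code {f : ℕ → ℕ} {k v : ℕ} : ZFSet.pair (num k) (num v) ∈ code f ↔ f k = v := by
  rw [mem_code]
  constructor
  · rintro ⟨l, h⟩
    obtain ⟨a, b⟩ := ZFSet.pair_inj.1 h
    rw [← num_inj a, num_inj b]
  · rintro rfl
    exact ⟨k, rfl⟩

theorem code_inj {f g : ℕ → ℕ} (h : code f = code g) : f = g :=
  funext fun k => (pair_mem_code.1 (h ▸ pair_mem_code.2 rfl : _ ∈ code g)).symm

/-- The name of the pair `(k, v)`. -/
noncomputable def pr (k v : ℕ) : Name P := op (oc (k : Ordinal.{0})) (oc (v : Ordinal.{0}))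

/-- The condition forces the value `v` at `k`. -/
def Val (τ : Name P) (k v : ℕ) (q : P) : Prop := Fmem (pr k v) τ q

theorem Val.mono {τ : Name P} {k v : ℕ} {p q : P} (h : Val τ k v p) (hq : q ≤ p) : Val τ k v q :=
  Fmem.mono h hq

theorem upair_elim {ρ σ τ : Name P} {p : P} (h : Fmem ρ (upair σ τ) p) :
    ∃ r ≤ p, Feq ρ σ r ∨ Feq ρ τ r := by
  obtain ⟨r, hr, b, hb⟩ := h.fam_elim le_rfl
  cases b
  · exact ⟨r, hr, Or.inr hb⟩
  · exact ⟨r, hr, Or.inl hb⟩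

theorem mem_upair_left (σ τ : Name P) (p : P) : Fmem σ (upair σ τ) p :=
  fmem_fam_self (fun b : Bool => cond b σ τ) true p

theorem mem_upair_right (σ τ : Name P) (p : P) : Fmem τ (upair σ τ) p :=
  fmem_fam_self (fun b : Bool => cond b σ τ) false p

theorem feq_pr {k v k' v' : ℕ} {p : P} (h : Feq (pr k v) (pr k' v') p) : k = k' ∧ v = v' := by
  have oc_up : ∀ {a b c : ℕ} {τ : Name P} {r : P}, Fmem (oc (a : Ordinal.{0})) τ r →
      Feq τ (upair (oc (b : Ordinal.{0})) (oc (c : Ordinal.{0}))) r → a = b ∨ a = c := by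
    intro a b c τ r h1 h2
    obtain ⟨s, -, h3⟩ := upair_elim (h1.congr_right h2)
    exact h3.imp (fun h => Nat.cast_injective (feq_oc_iff.1 h))
      fun h => Nat.cast_injective (feq_oc_iff.1 h)
  have key : ∀ {k v k' v' : ℕ}, Feq (pr k v) (pr k' v') p → k' = k ∧ (v = k' ∨ v = v') := by
    intro k v k' v' h
    constructor
    · obtain ⟨r, -, h1 | h1⟩ := upair_elim ((mem_upair_left _ _ p).congr_right h)
      · exact (oc_up (mem_upair_left _ _ r) h1.symm).elim id id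
      · exact (oc_up (mem_upair_left _ _ r) h1.symm).elim id id
    · obtain ⟨r, -, h1 | h1⟩ := upair_elim ((mem_upair_right _ _ p).congr_right h)
      · exact Or.inl ((oc_up (mem_upair_right _ _ r) h1).elim id id)
      · exact oc_up (mem_upair_right _ _ r) h1
  have h1 := key h
  have h2 := key h.symm
  omega

/-- The name of a real given by a relation. -/
noncomputable def rn (φ : ℕ → ℕ → P → Prop) : Name P :=
  ⟨ℕ × ℕ, fun c => pr c.1 c.2, fun c q => φ c.1 c.2 q⟩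

theorem val_rn {φ : ℕ → ℕ → P → Prop} (hm : ∀ k v p q, φ k v p → q ≤ p → φ k v q) {k v : ℕ}
    {q : P} : Val (rn φ) k v q ↔ Dn (φ k v) q := by
  constructor
  · intro h r hr
    obtain ⟨s, hs, ⟨k', v'⟩, h1, h2⟩ := Fmem.elim (ι := ℕ × ℕ) (A := fun c => pr c.1 c.2)
      (c := fun c q => φ c.1 c.2 q) (fun c s r h hr => hm _ _ _ _ h hr) h hr
    obtain ⟨rfl, rfl⟩ := feq_pr h2
    exact ⟨s, hs, h1⟩
  · intro h
    refine Fmem.reg fun r hr => ?_
    obtain ⟨s, hs, h1⟩ := h r hr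
    exact ⟨s, hs, Fmem.intro (k, v) h1 (Feq.refl _ _)⟩

/-- A task without new names. -/
def dec (u : List (Name P) → P → Prop) : Job P := fun l _ q => u l q

variable {g : Gen P}

theorem meets_dec {u : List (Name P) → P → Prop} (h : g.Meets (dec u))
    (hm : ∀ l p q, u l p → q ≤ p → u l q) (l : List (Name P)) (hl : ∀ x ∈ l, x ∈ g.N) :
    (∀ᶠ q in g.fil, u l q) ∨ ∀ᶠ q in g.fil, Neg (u l) q := by
  rcases h.ev (fun l _ p q => hm l p q) l hl with ⟨_, -, h⟩ | h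
  · exact Or.inl h
  · exact Or.inr (h.mono fun q hq r hr => hq r hr ∅ countable_empty)

theorem ev_exists {ι : Sort*} {u : ι → P → Prop} (hm : ∀ i p q, u i p → q ≤ p → u i q)
    (h : ∀ᶠ q in g.fil, ∃ i, u i q) : ∃ i, ∀ᶠ q in g.fil, u i q :=
  let ⟨n, hn⟩ := h
  let ⟨i, hi⟩ := hn _ le_rfl
  ⟨i, n, fun _ hq => hm _ _ _ hi hq⟩

theorem pr_mem (k v : ℕ) : pr k v ∈ g.N := Gen.op_mem (Gen.nat_mem k) (Gen.nat_mem v)

theorem π_pr (k v : ℕ) : g.π (pr k v) = ZFSet.pair (num k) (num v) := by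
  rw [pr, Gen.π_op (Gen.nat_mem k) (Gen.nat_mem v), Gen.π_nat, Gen.π_nat]
  rfl

theorem ev_val {τ : Name P} (hτ : τ ∈ g.N) {f : ℕ → ℕ} (h : g.π τ = code f) {k v : ℕ} :
    (∀ᶠ q in g.fil, Val τ k v q) ↔ f k = v := by
  rw [← pair_mem_code, ← h, ← π_pr (g := g), Gen.π_mem_iff (pr_mem k v) hτ]
  rfl

theorem π_rn {φ : ℕ → ℕ → P → Prop} (hN : rn φ ∈ g.N) {f : ℕ → ℕ}
    (h : ∀ k v, (∀ᶠ q in g.fil, Val (rn φ) k v q) ↔ f k = v) : g.π (rn φ) = code f := by
  ext y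
  rw [mem_code]
  constructor
  · intro hy
    obtain ⟨c, -, rfl, h'⟩ := Gen.exists_child hN hy
    refine ⟨c.1, ?_⟩
    rw [(h c.1 c.2).1 (h'.mono fun q hq => Fmem.of_act c hq (Feq.refl _ _))]
    exact (π_pr _ _).symm
  · rintro ⟨k, rfl⟩
    rw [← π_pr (g := g), Gen.π_mem_iff (pr_mem _ _) hN]
    exact (h k _).2 rfl

/-- The task refuting a relation between the values of two names. -/
def jR (Φ : ℕ → ℕ → ℕ → ℕ → Prop) : Job P := dec fun l q =>
  ∃ c : ℕ × ℕ × ℕ × ℕ, ¬ Φ c.1 c.2.1 c.2.2.1 c.2.2.2 ∧ Val (l.getD 0 emp) c.1 c.2.1 q ∧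
    Val (l.getD 1 emp) c.2.2.1 c.2.2.2 q

theorem ev_rel {Φ : ℕ → ℕ → ℕ → ℕ → Prop} (hW : g.Meets (jR Φ)) {σ τ : Name P} (hσ : σ ∈ g.N)
    (hτ : τ ∈ g.N) {f h : ℕ → ℕ} (e1 : g.π σ = code f) (e2 : g.π τ = code h)
    (H : ∀ k k', Φ k (f k) k' (h k')) :
    ∀ᶠ q in g.fil, ∀ k v k' v', ∀ r ≤ q, Val σ k v r → Val τ k' v' r → Φ k v k' v' := by
  rcases meets_dec hW (fun l p q ⟨c, a, b, d⟩ hq => ⟨c, a, b.mono hq, d.mono hq⟩) [σ, τ]
    (Gen.l2 hσ hτ) with h1 | h1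
  · obtain ⟨c, hc⟩ := ev_exists (fun c p q ⟨a, b, d⟩ hq => ⟨a, b.mono hq, d.mono hq⟩) h1
    obtain ⟨q, a, -⟩ := hc.exists
    have b := (ev_val hσ e1).1 (hc.mono fun q hq => hq.2.1)
    have d := (ev_val hτ e2).1 (hc.mono fun q hq => hq.2.2)
    exact absurd (b ▸ d ▸ H _ _) a
  · filter_upwards [h1] with q hq k v k' v' r hr a b
    by_contra hc
    exact hq r hr ⟨(k, v, k', v'), hc, a, b⟩

/-- The name is forced to be a real. -/
def IsR (τ : Name P) (q : P) : Prop :=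
  (∀ k, Dn (fun r => ∃ v, Val τ k v r) q) ∧
    ∀ k v v', ∀ r ≤ q, Val τ k v r → Val τ k v' r → v = v'

theorem IsR.mono {τ : Name P} {p q : P} (h : IsR τ p) (hq : q ≤ p) : IsR τ q :=
  ⟨fun k => (h.1 k).mono hq, fun k v v' r hr => h.2 k v v' r (hr.trans hq)⟩

/-- The task refuting totality. -/
def jT : Job P := dec fun l q => ∃ k, Neg (fun r => ∃ v, Val (l.getD 0 emp) k v r) q

theorem ev_isR (h1 : g.Meets jT) (h2 : g.Meets (jR fun k v k' v' => k = k' → v = v'))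
    {τ : Name P} (hτ : τ ∈ g.N) {f : ℕ → ℕ} (e : g.π τ = code f) : ∀ᶠ q in g.fil, IsR τ q := by
  have a := ev_rel h2 hτ hτ e e fun k k' h => congrArg f h
  rcases meets_dec h1 (fun l p q ⟨k, b⟩ hq => ⟨k, b.mono hq⟩) [τ] (Gen.l1 hτ) with h | h
  · obtain ⟨k, hk⟩ := ev_exists (u := fun k => Neg fun r => ∃ v, Val τ k v r)
      (fun k p q b hq => b.mono hq) h
    exact (PreGen.ev_not_neg (((ev_val hτ e).2 rfl).mono fun q hq => ⟨f k, hq⟩) hk).elim
  · filter_upwards [a, h] with q b c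
    exact ⟨fun k => dn_of_not_neg fun r hr hn => c r hr ⟨k, hn⟩,
      fun k v v' r hr d e => b k v k v' r hr d e rfl⟩

/-- From `L` on the values are forced to exceed `N`. -/
def Big (τ : Name P) (N L : ℕ) (q : P) : Prop := ∀ k v, ∀ r ≤ q, Val τ k v r → L ≤ k → N < v

theorem Big.mono {τ : Name P} {N L : ℕ} {p q : P} (h : Big τ N L p) (hq : q ≤ p) :
    Big τ N L q := fun k v r hr => h k v r (hr.trans hq)

/-- The task refuting divergence. -/
def jD : Job P := dec fun l q => ∃ N, Neg (fun r => ∃ L, Big (l.getD 0 emp) N L r) q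

theorem ev_div (h1 : g.Meets jD) (h2 : ∀ N L, g.Meets (jR fun k v _ _ => L ≤ k → N < v))
    {τ : Name P} (hτ : τ ∈ g.N) {f : ℕ → ℕ} (e : g.π τ = code f) (hf : Tendsto f atTop atTop) :
    ∀ᶠ q in g.fil, ∀ N, Dn (fun r => ∃ L, Big τ N L r) q := by
  rcases meets_dec h1 (fun l p q ⟨k, b⟩ hq => ⟨k, b.mono hq⟩) [τ] (Gen.l1 hτ) with h | h
  · obtain ⟨N, hN⟩ := ev_exists (u := fun N => Neg fun r => ∃ L, Big τ N L r)
      (fun k p q b hq => b.mono hq) h
    obtain ⟨L, hL⟩ := eventually_atTop.1 (hf.eventually_gt_atTop N)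
    refine (PreGen.ev_not_neg ?_ hN).elim
    filter_upwards [ev_rel (h2 N L) hτ hτ e e fun k _ => hL k] with q hq
    exact ⟨L, fun k v r hr a => hq k v k v r hr a a⟩
  · filter_upwards [h] with q c N
    exact dn_of_not_neg fun r hr hn => c r hr ⟨N, hn⟩

/-- The task deciding a value. -/
def jV (k : ℕ) : Job P := dec fun l q => ∃ v, Val (l.getD 0 emp) k v q

end Pool.Agent.Lib.MP_60e7f9_lc
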