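import Mathlib
import Pool.Agent.Lib.Common.TreeIter.Laver
import Pool.Agent.Lib.Common.TreeIter.Reduce
import Pool.Agent.Lib.Common.TreeIter.Count
import Pool.Agent.Lib.MP_60e7f9_lc.Reals

/-!
The forcing notion and continuous reading of names.
-/

set_option autoImplicit false
set_option linter.unusedSectionVars false

namespace Pool.Agent.Lib.MP_60e7f9_lc

open Set Filter Function Pool.Agent.Lib.Common.Forcing Pool.Agent.Lib.Common.TreeIter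

/-- The forcing notion. -/
def Pos (I : Type) [LinearOrder I] : Type := {p : X I → X I // Cnd univ p}

variable {I : Type} [LinearOrder I]

instance : Preorder (Pos I) where
  le q p := ∃ w, Cnd univ w ∧ q.1 = p.1 ∘ w
  le_refl _ := ⟨id, Cnd.id, rfl⟩
  le_trans _ _ _ := fun ⟨w, a, b⟩ ⟨w', c, d⟩ => ⟨w' ∘ w, c.comp a, by rw [b, d]; rfl⟩

instance : Inhabited (Pos I) := ⟨⟨id, Cnd.id⟩⟩

/-- The extension of `p` by `w`. -/
def ext (p : Pos I) (w : X I → X I) (hw : Cnd univ w) : Pos I := ⟨p.1 ∘ w, p.2.comp hw⟩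

theorem ext_le (p : Pos I) {w : X I → X I} (hw : Cnd univ w) : ext p w hw ≤ p := ⟨w, hw, rfl⟩

theorem exists_ext {p q : Pos I} (h : q ≤ p) : ∃ w hw, q = ext p w hw :=
  let ⟨w, a, b⟩ := h; ⟨w, a, Subtype.ext b⟩

/-- Fixing the value of a locally constant function. -/
theorem exists_cyl {Y : Sort*} {f : X I → Y} (hf : CD univ f) (x : X I) :
    ∃ w, Cnd univ w ∧ ∀ y, f (w y) = f x :=
  let ⟨D, a, b, c⟩ := exists_fix (hf.ev x); ⟨fix D x, cnd_fix a b x, c⟩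

/-- The relation `R` is read from the index configuration by `ψ`. -/
def Reads (R : ℕ → ℕ → Pos I → Prop) (ψ : X I → ℕ → ℕ) (q : Pos I) : Prop :=
  (∀ k, CD univ fun x => ψ x k) ∧
    ∀ k v w hw, (∀ y, ψ (w y) k = v) → Dn (R k v) (ext q w hw)

section
variable {R : ℕ → ℕ → Pos I → Prop} {ψ : X I → ℕ → ℕ} {q : Pos I}

theorem Reads.ext (h : Reads R ψ q) {w : X I → X I} (hw : Cnd univ w) :
    Reads R (fun x => ψ (w x)) (ext q w hw) :=
  ⟨fun k => (h.1 k).comp isLowerSet_univ hw.cau, fun k v w' hw' hy =>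
    h.2 k v (w ∘ w') (hw.comp hw') hy⟩

theorem Reads.mono {R' : ℕ → ℕ → Pos I → Prop} (h : Reads R ψ q)
    (h' : ∀ k v r, R k v r → R' k v r) : Reads R' ψ q :=
  ⟨h.1, fun k v w hw hy r hr => let ⟨s, a, b⟩ := h.2 k v w hw hy r hr; ⟨s, a, h' _ _ _ b⟩⟩

theorem Reads.exists (h : Reads R ψ q) (k : ℕ) (x : X I) : ∃ r ≤ q, R k (ψ x k) r := by
  obtain ⟨w, hw, e⟩ := exists_cyl (h.1 k) x
  obtain ⟨r, a, b⟩ := h.2 k _ w hw e _ le_rfl
  exact ⟨r, a.trans (ext_le _ _), b⟩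

theorem Reads.exists₂ {R' : ℕ → ℕ → Pos I → Prop} {ψ' : X I → ℕ → ℕ} (h : Reads R ψ q)
    (h' : Reads R' ψ' q) (hm : ∀ k v p q, R k v p → q ≤ p → R k v q) (k k' : ℕ) (x : X I) :
    ∃ r ≤ q, R k (ψ x k) r ∧ R' k' (ψ' x k') r := by
  obtain ⟨w, hw, e⟩ := exists_cyl ((h.1 k).map₂ (h'.1 k') Prod.mk) x
  obtain ⟨r, a, b⟩ := h.2 k _ w hw (fun y => congrArg Prod.fst (e y)) _ le_rfl
  obtain ⟨s, c, d⟩ := h'.2 k' _ w hw (fun y => congrArg Prod.snd (e y)) _ a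
  exact ⟨s, c.trans (a.trans (ext_le _ _)), hm _ _ _ _ b c, d⟩

theorem Reads.unique {R' : ℕ → Pos I → Prop} (h : Reads R ψ q)
    (hm : ∀ v p q, R' v p → q ≤ p → R' v q) {k v : ℕ}
    (hu : ∀ v v', ∀ r ≤ q, R k v r → R' v' r → v = v') (hv : R' v q) (x : X I) : ψ x k = v :=
  let ⟨r, a, b⟩ := h.exists k x
  hu _ _ r a b (hm _ _ _ hv a)

theorem exists_reads [WellFoundedLT I] (hm : ∀ k v p q, R k v p → q ≤ p → R k v q)
    (hd : ∀ k, Dn (fun r => ∃ v, R k v r) q) :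
    ∃ w hw ψ, Reads R ψ (ext q w hw) := by
  obtain ⟨w, hw, hl⟩ := cr_univ ℕ (fun k p => ∃ hp : Cnd univ p, ∃ v, R k v (ext q p hp))
    (fun k p p' ⟨a, v, b⟩ c => ⟨a.comp c, v, hm _ _ _ _ b (ext_le (ext q p a) c)⟩)
    (fun k p hp => by
      obtain ⟨r, a, v, b⟩ := hd k _ (ext_le q hp)
      obtain ⟨w, hw, rfl⟩ := exists_ext a
      exact ⟨w, hw, hp.comp hw, v, b⟩)
  choose ρ h1 h2 using fun k => (hl k).select
  classical
  let V : ℕ → (X I → X I) → ℕ := fun k u =>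
    Classical.epsilon fun v => ∃ hp : Cnd univ (w ∘ u), R k v (ext q _ hp)
  have hV : ∀ k x, ∃ hp : Cnd univ (w ∘ ρ k x), R k (V k (ρ k x)) (ext q _ hp) := fun k x =>
    Classical.epsilon_spec (p := fun v => ∃ hp : Cnd univ (w ∘ ρ k x), R k v (ext q _ hp))
      (let ⟨a, v, b⟩ := (h2 k x).1; ⟨v, a, b⟩)
  refine ⟨w, hw, fun x k => V k (ρ k x), fun k => (h1 k).map _, fun k v u hu hy r hr => ?_⟩
  obtain ⟨t, ht, rfl⟩ := exists_ext hr
  obtain ⟨e, he, h3⟩ := exists_cyl ((h1 k).comp isLowerSet_univ (hu.comp ht).cau) default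
  obtain ⟨a, b⟩ := hV k (u (t default))
  rw [show V k (ρ k (u (t default))) = v from hy (t default)] at b
  refine ⟨_, ext_le _ he, hm _ _ _ _ b ⟨u ∘ t ∘ e, hu.comp (ht.comp he), ?_⟩⟩
  funext y
  show q.1 (w (u (t (e y)))) = q.1 (w (ρ k (u (t default)) (u (t (e y)))))
  rw [show ρ k (u (t default)) = ρ k (u (t (e y))) from (h3 y).symm, (h2 k _).2.2]

end

/-- The name of the real computed from the generic configuration by `Ψ`. -/
noncomputable def an (Ψ : X I → ℕ → ℕ) : Name (Pos I) := rn fun k v r => ∀ y, Ψ (r.1 y) k = v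

theorem val_an {Ψ : X I → ℕ → ℕ} {k v : ℕ} {q : Pos I} (h : CD univ fun y => Ψ (q.1 y) k) :
    Val (an Ψ) k v q ↔ ∀ y, Ψ (q.1 y) k = v := by
  have hm : ∀ k v (p q : Pos I), (∀ y, Ψ (p.1 y) k = v) → q ≤ p → ∀ y, Ψ (q.1 y) k = v := by
    rintro k v p q h ⟨w, -, e⟩ y
    rw [e]
    exact h _
  rw [an, val_rn hm]
  refine ⟨fun h' y => ?_, fun h' r hr => ⟨r, le_rfl, hm _ _ _ _ h' hr⟩⟩
  obtain ⟨w, hw, e⟩ := exists_cyl h y
  obtain ⟨r, ⟨u, -, e'⟩, b⟩ := h' _ (ext_le q hw)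
  rw [← e (u y), ← b y, e']
  rfl

theorem cd_mono {Y : Sort*} {f : X I → Y} {p q : Pos I} (h : CD univ fun y => f (p.1 y))
    (hq : q ≤ p) : CD univ fun y => f (q.1 y) := by
  obtain ⟨w, hw, rfl⟩ := exists_ext hq
  exact h.comp isLowerSet_univ hw.cau

theorem π_an {g : Gen (Pos I)} (hW : ∀ k, g.Meets (jV k)) {Ψ : X I → ℕ → ℕ} (hN : an Ψ ∈ g.N)
    (h : ∀ᶠ q in g.fil, ∀ k, CD univ fun y => Ψ (q.1 y) k) :
    ∃ f, g.π (an Ψ) = code f ∧ ∀ k, ∀ᶠ q in g.fil, ∀ y, Ψ (q.1 y) k = f k := by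
  have h1 : ∀ k, ∃ v, ∀ᶠ q in g.fil, ∀ y, Ψ (q.1 y) k = v := fun k => by
    rcases meets_dec (hW k) (fun l p q ⟨v, b⟩ hq => ⟨v, b.mono hq⟩) [an Ψ] (Gen.l1 hN) with a | a
    · obtain ⟨v, hv⟩ := ev_exists (u := fun v => Val (an Ψ) k v) (fun v p q b hq => b.mono hq) a
      exact ⟨v, (hv.and h).mono fun q hq => (val_an (hq.2 k)).1 hq.1⟩
    · obtain ⟨q, b, c⟩ := (a.and h).exists
      obtain ⟨w, hw, e⟩ := exists_cyl (c k) default
      exact absurd ⟨_, (val_an (cd_mono (f := fun z => Ψ z k) (c k) (ext_le q hw))).2 e⟩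
        (b _ (ext_le q hw))
  choose f hf using h1
  refine ⟨f, π_rn hN fun k v => ⟨fun a => ?_, ?_⟩, hf⟩
  · obtain ⟨q, b, c, d⟩ := (a.and (h.and (hf k))).exists
    exact (d default).symm.trans ((val_an (c k)).1 b default)
  · rintro rfl
    exact ((hf k).and h).mono fun q hq => (val_an (hq.2 k)).2 hq.1

end Pool.Agent.Lib.MP_60e7f9_lc
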