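import Mathlib
import Pool.Agent.Lib.MP_60e7f9_lc.Pos
import Pool.Agent.Lib.MP_60e7f9_lc.Coin

/-!
The three density arguments.
-/

set_option autoImplicit false
set_option linter.unusedSectionVars false

namespace Pool.Agent.Lib.MP_60e7f9_lc

open Set Filter Function Cardinal Pool.Agent.Lib.Common.Forcing Pool.Agent.Lib.Common.TreeIter

variable {I : Type} [LinearOrder I] [WellFoundedLT I]

/-- The real `τ` and a modulus of its divergence are read below the coordinate `β`. -/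
def RB (τ : Name (Pos I)) (β : I) (q : Pos I) : Prop :=
  ∃ (ψ : X I → ℕ → ℕ) (L : ℕ → X I → ℕ), Reads (Val τ) ψ q ∧
    (∀ k, CD (Iio (sp β 0)) fun x => ψ x k) ∧ (∀ N, CD (Iio (sp β 0)) (L N)) ∧
    ∀ N x k, L N x ≤ k → N < ψ x k

theorem RB.mono {τ : Name (Pos I)} {β : I} {p q : Pos I} (h : RB τ β p) (hq : q ≤ p) :
    RB τ β q := by
  obtain ⟨w, hw, rfl⟩ := exists_ext hq
  obtain ⟨ψ, L, a, b, c, d⟩ := h
  exact ⟨_, fun N x => L N (w x), a.ext hw, fun k => (b k).comp (isLowerSet_Iio _) hw.cau,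
    fun N => (c N).comp (isLowerSet_Iio _) hw.cau, fun N x k => d N (w x) k⟩

theorem exists_val_reads {τ : Name (Pos I)} {q : Pos I} (h : IsR τ q) :
    ∃ w hw ψ, Reads (Val τ) ψ (ext q w hw) :=
  exists_reads (fun _ _ _ _ a b => a.mono b) h.1

theorem exists_RB (hI : Long I) {τ : Name (Pos I)} {q : Pos I} (h : IsR τ q)
    (hd : ∀ N, Dn (fun r => ∃ L, Big τ N L r) q) : ∃ r ≤ q, ∃ β, RB τ β r := by
  obtain ⟨w, hw, ψ, a⟩ := exists_val_reads h
  obtain ⟨u, hu, L, b⟩ := exists_reads (R := Big τ) (q := ext q w hw)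
    (fun _ _ _ _ a b => a.mono b) fun N => (hd N).mono (ext_le q hw)
  have a' := a.ext hu
  obtain ⟨β, hβ⟩ := hI.cd (J := ℕ) (f := fun k x => (ψ (u x) k, L x k))
    fun k => (a'.1 k).map₂ (b.1 k) Prod.mk
  refine ⟨_, (ext_le _ hu).trans (ext_le q hw), β, _, fun N x => L x N, a',
    fun k => (hβ k).map Prod.fst, fun k => (hβ k).map Prod.snd, fun N x k hk => ?_⟩
  obtain ⟨r, -, c, d⟩ := a'.exists₂ b (fun _ _ _ _ a b => a.mono b) k N x
  exact d k _ r le_rfl c hk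

/-- Codes for reals computed below the coordinate `β`. -/
def Ix (β : I) : Type :=
  {a : X I → X I | Cnd (Iio (sp β 0)) a} × (ℕ → {f : X I → ℕ | CD (Iio (sp β 0)) f})

theorem card_Ix (hI : Long I) (β : I) : #(Ix β) ≤ 𝔠 := by
  have h := card_Iio_sp (hI.small β)
  simp only [Ix, mk_prod, lift_id]
  exact (mul_le_mul' (card_cnd h (isLowerSet_Iio _)) (card_fun_le (card_cd h))).trans_eq
    continuum_mul_self

/-- The real with a given code. -/
noncomputable def Ψ {β : I} (i : Ix β) (z : X I) (k : ℕ) : ℕ :=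
  (i.2 k).1 (Classical.epsilon fun x => ∀ s < sp β 0, i.1.1 x s = z s)

/-- The code is good below the condition. -/
def Gd (τ : Name (Pos I)) {β : I} (i : Ix β) (r : Pos I) : Prop :=
  ∃ ψ, Reads (Val τ) ψ r ∧ (∀ k, CD univ fun y => Ψ i (r.1 y) k) ∧ ∀ y k, Ψ i (r.1 y) k < ψ y k

theorem Gd.mono {τ : Name (Pos I)} {β : I} {i : Ix β} {p q : Pos I} (h : Gd τ i p) (hq : q ≤ p) :
    Gd τ i q := by
  obtain ⟨w, hw, rfl⟩ := exists_ext hq
  obtain ⟨ψ, a, b, c⟩ := h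
  exact ⟨_, a.ext hw, fun k => (b k).comp isLowerSet_univ hw.cau, fun y k => c (w y) k⟩

/-- The name of the set of reals below `τ` that are computed below the coordinate `β`. -/
noncomputable def Fn (τ : Name (Pos I)) (β : I) : Name (Pos I) :=
  ⟨Ix β, fun i => an (Ψ i), fun i r => Gd τ i r⟩

theorem exists_code {β : I} (q : Pos I) {f : X I → ℕ → ℕ}
    (hf : ∀ k, CD (Iio (sp β 0)) fun x => f x k) :
    ∃ c, Cnd univ c ∧ ∃ i : Ix β, ∀ y k, Ψ i (q.1 (c y)) k = f (c y) k := by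
  have ha := q.2.res (sp β 0)
  obtain ⟨c, hc, h⟩ := ha.reduce
  refine ⟨c, hc.mono (subset_univ _), (⟨_, ha.comp hc⟩, fun k => ⟨fun x => f (c x) k,
    (hf k).comp (isLowerSet_Iio _) hc.cau⟩), fun y k => ?_⟩
  have h1 := Classical.epsilon_spec (p := fun x => ∀ s < sp β 0,
    (res (sp β 0) q.1 ∘ c) x s = q.1 (c y) s) ⟨y, fun s hs => res_of_lt hs _⟩
  show f (c (Classical.epsilon fun x => ∀ s < sp β 0,
    (res (sp β 0) q.1 ∘ c) x s = q.1 (c y) s)) k = _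
  generalize Classical.epsilon (fun x => ∀ s < sp β 0,
    (res (sp β 0) q.1 ∘ c) x s = q.1 (c y) s) = x at h1
  have e : ∀ s < sp β 0, fix (Iio (sp β 0)) x y s = x s := fun s hs =>
    fix_of_mem (D := Iio (sp β 0)) hs _ _
  have h2 : c (fix (Iio (sp β 0)) x y) = c y := h _ _ (funext fun s => by
    rcases lt_or_ge s (sp β 0) with hs | hs
    · rw [← comp_apply (f := res (sp β 0) q.1), (ha.comp hc).cau.agree_lt e s hs, h1 s hs,
        res_of_lt hs]
    · rw [res_of_le hs, res_of_le hs, hc.sup _ _ (not_lt.2 hs), hc.sup _ _ (not_lt.2 hs),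
        fix_of_notMem (D := Iio (sp β 0)) (not_lt.2 hs)])
  refine (hf k).congr fun s hs => ?_
  rw [← h2, hc.cau.agree_lt e s hs]

/-- The values of `σ` and `η` agree only where `τ` is at most one. -/
def Avd (σ η τ : Name (Pos I)) (q : Pos I) : Prop :=
  ∀ k v v', ∀ r ≤ q, Val σ k v r → Val η k v r → Val τ k v' r → v' ≤ 1

theorem exists_avd {η τ : Name (Pos I)} {β : I} {q : Pos I} (h1 : IsR η q) (h2 : IsR τ q)
    (h3 : RB τ β q) (h4 : ∀ k v v', ∀ r ≤ q, Val η k v r → Val τ k v' r → v < v') :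
    ∃ r ≤ q, ∃ σ, Fmem σ (Fn τ β) r ∧ Avd σ η τ r := by
  obtain ⟨w, hw, h, a⟩ := exists_val_reads h1
  have hq := ext_le q hw
  generalize ext q w hw = q₁ at a hq
  obtain ⟨b, L, b1, b2, b3, b4⟩ := h3.mono hq
  obtain ⟨p, hp, f, f1, f2⟩ := laver β b2 a.1 (fun x k => by
    obtain ⟨r, hr, c, d⟩ := a.exists₂ b1 (fun _ _ _ _ a b => a.mono b) k k x
    exact h4 k _ _ r (hr.trans hq) c d) b3 b4
  obtain ⟨c, hc, i, hi⟩ := exists_code (ext q₁ p hp) f1
  have hq₃ : ext (ext q₁ p hp) c hc ≤ q := (ext_le _ hc).trans ((ext_le _ hp).trans hq)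
  have hcd : ∀ k, CD univ fun y => Ψ i ((ext (ext q₁ p hp) c hc).1 y) k := fun k => by
    rw [show (fun y => Ψ i ((ext (ext q₁ p hp) c hc).1 y) k) = _ from funext fun y => hi y k]
    exact ((f1 k).mono (subset_univ _)).comp isLowerSet_univ hc.cau
  refine ⟨_, hq₃, an (Ψ i), Fmem.intro (c := fun i r => Gd τ i r) i ⟨_, (b1.ext hp).ext hc, hcd,
    fun y k => (hi y k).trans_lt (f2 _ k).1⟩ (Feq.refl _ _), fun k v v' r hr d1 d2 d3 => ?_⟩
  have e1 := (val_an (cd_mono (f := fun z => Ψ i z k) (hcd k) hr)).1 d1 default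
  have hrq := hr.trans hq₃
  obtain ⟨u, hu, rfl⟩ := exists_ext hr
  have e2 := (((a.ext hp).ext hc).ext hu).unique (R' := Val η k) (fun _ _ _ a b => a.mono b)
    (fun v v' r hr => h1.2 k v v' r (hr.trans hrq)) d2 default
  have e3 := (((b1.ext hp).ext hc).ext hu).unique (R' := Val τ k) (fun _ _ _ a b => a.mono b)
    (fun v v' r hr => h2.2 k v v' r (hr.trans hrq)) d3 default
  by_contra hv
  exact (f2 (c (u default)) k).2 (e3 ▸ not_le.1 hv) (((hi _ k).symm.trans e1).trans e2.symm)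

/-- The generic sequence of pairs at the coordinate `α`. -/
def Z (α : I) (y : X I) (j : ℕ) : ℕ := Nat.pair (y (sp α j)).1.1 (y (sp α j)).1.2

theorem cd_Z (α : I) (q : Pos I) (j : ℕ) : CD univ fun y => Z α (q.1 y) j :=
  ((q.2.cau (sp α j)).mono (subset_univ _)).map fun v => Nat.pair v.1.1 v.1.2

/-- The real `ρ` is forced to be constant on the pairs listed by `z` from `n` on. -/
def Cov (ρ z : Name (Pos I)) (n : ℕ) (q : Pos I) : Prop :=
  ∀ j ≥ n, ∀ r ≤ q, ∀ u, Val z j u r → j ≤ u.unpair.1 ∧ u.unpair.1 < u.unpair.2 ∧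
    ∀ v v', Val ρ u.unpair.1 v r → Val ρ u.unpair.2 v' r → v = v'

theorem Cov.mono {ρ z : Name (Pos I)} {n : ℕ} {p q : Pos I} (h : Cov ρ z n p) (hq : q ≤ p) :
    Cov ρ z n q := fun j hj r hr => h j hj r (hr.trans hq)

/-- The name is forced to be a binary real. -/
def IsB (ρ : Name (Pos I)) (q : Pos I) : Prop := IsR ρ q ∧ ∀ k v, ∀ r ≤ q, Val ρ k v r → v < 2

theorem IsB.mono {ρ : Name (Pos I)} {p q : Pos I} (h : IsB ρ p) (hq : q ≤ p) : IsB ρ q :=
  ⟨h.1.mono hq, fun k v r hr => h.2 k v r (hr.trans hq)⟩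

theorem exists_cov (hI : Long I) {ι : Type} (hι : #ι ≤ 𝔠) {R : Name (Pos I) → ι → Pos I → Prop}
    (hm : ∀ ρ i p q, R ρ i p → q ≤ p → R ρ i q) {q : Pos I}
    (hb : ∀ ρ i, ∀ r ≤ q, R ρ i r → IsB ρ r)
    (hu : ∀ ρ ρ' i k v v', ∀ r ≤ q, R ρ i r → R ρ' i r → Val ρ k v r → Val ρ' k v' r → v = v') :
    ∃ α, ∀ ρ i, ∀ r ≤ q, R ρ i r → ∃ s ≤ r, ∃ n, Cov ρ (an (Z α)) n s := by
  obtain ⟨α, hα⟩ := hI.reflect hι (𝒟 := fun i γ w => ∃ hw : Cnd univ w,
    (∃ ρ ψ, R ρ i (ext q w hw) ∧ Reads (Val ρ) ψ (ext q w hw) ∧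
      ∀ k, CD (Iio (sp γ 0)) fun x => ψ x k) ∨ Neg (fun r => ∃ ρ, R ρ i r) (ext q w hw))
    (fun i β γ p h ⟨a, b⟩ => ⟨a, b.imp_left fun ⟨ρ, ψ, c, d, e⟩ =>
      ⟨ρ, ψ, c, d, fun k => (e k).mono (sp_zero_mono h)⟩⟩) fun i p hp => by
      obtain ⟨r, hr, h | h⟩ := exists_decide (fun r => ∃ ρ, R ρ i r) (ext q p hp)
      · obtain ⟨ρ, h⟩ := h
        obtain ⟨u, hu, ψ, a⟩ := exists_val_reads (hb ρ i r (hr.trans (ext_le _ _)) h).1
        obtain ⟨w, hw, rfl⟩ := exists_ext hr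
        obtain ⟨γ, hγ⟩ := hI.cd a.1
        exact ⟨γ, w ∘ u, hw.comp hu, hp.comp (hw.comp hu), Or.inl ⟨ρ, ψ,
          hm _ _ _ _ h (ext_le (ext (ext q p hp) w hw) hu), a, hγ⟩⟩
      · obtain ⟨w, hw, rfl⟩ := exists_ext hr
        obtain ⟨γ, -⟩ := hI.bdd ∅ (by simp)
        exact ⟨γ, w, hw, hp.comp hw, Or.inr h⟩
  refine ⟨α, fun ρ i r hr h => ?_⟩
  obtain ⟨u, hu', rfl⟩ := exists_ext hr
  obtain ⟨w, hw, a, b⟩ := hα i _ (hu'.res (sp α 0))
  have hw' := hw.mono (subset_univ _)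
  have ht := (hu'.comp hw').up (sp α 0)
  have e : ext (ext q _ a) _ ht = ext (ext q u hu') w hw' := Subtype.ext (by
    show q.1 ∘ (res (sp α 0) u ∘ w) ∘ up (sp α 0) (u ∘ w) = q.1 ∘ (u ∘ w)
    rw [show res (sp α 0) u ∘ w = res (sp α 0) (u ∘ w) from funext fun x => funext fun s => by
      rcases lt_or_ge s (sp α 0) with hs | hs
      · rw [comp_apply, res_of_lt hs, res_of_lt hs, comp_apply]
      · rw [comp_apply, res_of_le hs, res_of_le hs, hw.sup _ _ (not_lt.2 hs)],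
      res_comp_up (hu'.comp hw').cau])
  have h1 : ext (ext q u hu') w hw' ≤ ext q u hu' := ext_le _ _
  have h' := hm _ _ _ _ h h1
  rcases b with ⟨ρ', ψ, b1, b2, b3⟩ | b
  swap
  · exact absurd ⟨ρ, h'⟩ (b _ (e ▸ ext_le _ ht))
  have c1 := hm _ _ _ _ b1 (ext_le _ ht)
  have c2 := b2.ext ht
  have c3 := fun k => (b3 k).comp (isLowerSet_Iio _) ht.cau
  rw [e] at c1 c2
  generalize ext (ext q u hu') w hw' = p at h1 h' c1 c2
  obtain ⟨χ, c2, c3⟩ : ∃ χ, Reads (Val ρ') χ p ∧ ∀ k, CD (Iio (sp α 0)) fun x => χ x k :=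
    ⟨_, c2, c3⟩
  have hp := h1.trans hr
  obtain ⟨t, ht, n, hn⟩ := cover α c3 (fun x k => by
    obtain ⟨r, d1, d2⟩ := c2.exists k x
    exact (hb _ _ _ hp c1).2 k _ r d1 d2) p.2
  refine ⟨_, (ext_le p ht).trans h1, n, fun j hj r hr u hu'' => ?_⟩
  have hrp := hr.trans (ext_le p ht)
  obtain ⟨t', ht', rfl⟩ := exists_ext hr
  have d := (val_an (cd_Z α _ j)).1 hu'' default
  have d' := hn (t' default) j hj
  have key : ∀ k v, Val ρ k v (ext (ext p t ht) t' ht') → χ (t (t' default)) k = v := fun k v hv =>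
    ((c2.ext ht).ext ht').unique (R' := Val ρ k) (fun _ _ _ a b => a.mono b)
      (fun v v' r hr => hu ρ' ρ i k v v' r (hr.trans (hrp.trans hp))
        (hm _ _ _ _ c1 (hr.trans hrp)) (hm _ _ _ _ h' (hr.trans hrp))) hv default
  rw [← d]
  simp only [Z, Nat.unpair_pair]
  exact ⟨d'.1, (p.1 (t (t' default)) (sp α j)).2, fun v v' a b =>
    (key _ _ a).symm.trans (d'.2.trans (key _ _ b))⟩

/-- The code of the closed sets of reals constant on the pairs listed by `z`. -/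
noncomputable def Cd (z : ℕ → ℕ) (t : ℕ) : ℕ :=
  let η := (Encodable.decode (α := List Bool) t.unpair.2).getD []
  open Classical in
  if ∀ j, t.unpair.1 ≤ j → j < η.length → j ≤ (z j).unpair.1 ∧ (z j).unpair.1 < (z j).unpair.2 ∧
    ((z j).unpair.2 < η.length → η.getD (z j).unpair.1 false = η.getD (z j).unpair.2 false)
  then 0 else 1

theorem Cd_congr (t : ℕ) : ∃ l, ∀ z z' : ℕ → ℕ, (∀ j < l, z j = z' j) → Cd z t = Cd z' t := by
  refine ⟨((Encodable.decode (α := List Bool) t.unpair.2).getD []).length, fun z z' h => ?_⟩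
  simp only [Cd]
  exact if_congr (forall₂_congr fun j _ => forall_congr' fun hj => by rw [h j hj]) rfl rfl

theorem mem_cls {z : ℕ → ℕ} {n : ℕ} {x : ℕ → Bool} : x ∈ cls (Cd z) n ↔ ∀ j ≥ n,
    j ≤ (z j).unpair.1 ∧ (z j).unpair.1 < (z j).unpair.2 ∧
      x (z j).unpair.1 = x (z j).unpair.2 := by
  have hg : ∀ l m, m < l → (List.ofFn fun i : Fin l => x i).getD m false = x m := fun l m h => by
    rw [List.getD_eq_getElem _ _ (by simpa using h)]
    simp
  simp only [cls, Cd, mem_ofPred_eq, Nat.unpair_pair, Encodable.encodek, Option.getD_some,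
    List.length_ofFn, ite_eq_left_iff, one_ne_zero, imp_false, not_not]
  constructor
  · intro h j hj
    obtain ⟨a, b, c⟩ := h (j + (z j).unpair.2 + 1) j hj (by omega)
    refine ⟨a, b, ?_⟩
    rw [← hg _ _ (show (z j).unpair.1 < j + (z j).unpair.2 + 1 by omega), c (by omega),
      hg _ _ (by omega)]
  · intro h l j hj _
    obtain ⟨a, b, c⟩ := h j hj
    exact ⟨a, b, fun d => by rw [hg _ _ d, hg _ _ (b.trans d), c]⟩

theorem null_cls (z : ℕ → ℕ) (n : ℕ) : coin (cls (Cd z) n) = 0 := by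
  rcases (cls (Cd z) n).eq_empty_or_nonempty with h | ⟨x, hx⟩
  · rw [h, MeasureTheory.measure_empty]
  · refine MeasureTheory.measure_mono_null (fun y hy j hj => (mem_cls.1 hy j hj).2.2)
      (null_pairs (m := fun j => (z j).unpair.1) (n := fun j => (z j).unpair.2) (N := n)
        fun j hj => ⟨(mem_cls.1 hx j hj).1, (mem_cls.1 hx j hj).2.1⟩)

theorem cd_Cd (α : I) (q : Pos I) (t : ℕ) : CD univ fun y => Cd (Z α (q.1 y)) t :=
  let ⟨l, hl⟩ := Cd_congr t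
  CD.of_local (cd_Z α q) fun _ => ⟨Iio l, finite_Iio l, fun _ hy => hl _ _ hy⟩

end Pool.Agent.Lib.MP_60e7f9_lc
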