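import Mathlib
import Pool.Agent.Lib.MP_60e7f9_lc.Dense

/-!
The model.
-/

set_option autoImplicit false
set_option linter.unusedSectionVars false

namespace Pool.Agent.Lib.MP_60e7f9_lc

open Set Filter Function Cardinal Pool.Agent.Lib.Common.Forcing Pool.Agent.Lib.Common.TreeIter

variable {I : Type} [LinearOrder I] [WellFoundedLT I]

def j1 : Job (Pos I) := fun l S q => ∃ β, Fn (l.getD 0 emp) β ∈ S ∧ RB (l.getD 0 emp) β q

def j2 : Job (Pos I) := fun l S q =>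
  ∃ σ ∈ S, Fmem σ (l.getD 1 emp) q ∧ Avd σ (l.getD 0 emp) (l.getD 2 emp) q

def j3 : Job (Pos I) := fun l S q => ∃ α, an (Z α) ∈ S ∧ an (fun y => Cd (Z α y)) ∈ S ∧
  ∀ ρ, ∀ r ≤ q, Fmem ρ (l.getD 0 emp) r → ∃ s ≤ r, ∃ n, Cov ρ (an (Z α)) n s

def j4 : Job (Pos I) := fun l S q => ∃ ρ ∈ S, Fmem ρ (l.getD 0 emp) q ∧
  Neg (fun r => ∃ i, IsB ρ r ∧ Fmem (op ρ ((l.getD 2 emp).A i)) (l.getD 1 emp) r) q

def j5 : Job (Pos I) := fun l S q => ∃ ρ ∈ S, ∃ ρ' ∈ S, ∃ σ ∈ S,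
  Fmem (op ρ σ) (l.getD 0 emp) q ∧ Fmem (op ρ' σ) (l.getD 0 emp) q ∧
    ∃ k v v', v ≠ v' ∧ Val ρ k v q ∧ Val ρ' k v' q

def j6 : Job (Pos I) := dec fun l q => ∃ n, Cov (l.getD 0 emp) (l.getD 1 emp) n q

def j7 : Job (Pos I) := fun _ S _ => an (fun _ k => k + 2) ∈ S

/-- The tasks met by the generic sequence. -/
structure Good (g : Gen (Pos I)) : Prop where
  tot : g.Meets jT
  eq : g.Meets (jR fun k v k' v' => k = k' → v = v')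
  lt : g.Meets (jR fun k v k' v' => k = k' → v < v')
  two : g.Meets (jR fun _ v _ _ => v < 2)
  big : ∀ N L, g.Meets (jR fun k v _ _ => L ≤ k → N < v)
  div : g.Meets jD
  val : ∀ k, g.Meets (jV k)
  m1 : g.Meets j1
  m2 : g.Meets j2
  m3 : g.Meets j3
  m4 : g.Meets j4
  m5 : g.Meets j5
  m6 : g.Meets j6
  m7 : g.Meets j7

theorem exists_good : ∃ g : Gen (Pos I), Good g := by
  obtain ⟨g, -, h⟩ := exists_gen (P := Pos I) ({jT, jR fun k v k' v' => k = k' → v = v',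
    jR fun k v k' v' => k = k' → v < v', jR fun _ v _ _ => v < 2, jD, j1, j2, j3, j4, j5, j6,
    j7} ∪ (range (fun c : ℕ × ℕ => jR fun k v _ _ => c.2 ≤ k → c.1 < v) ∪ range jV))
    ((toFinite _).countable.union ((countable_range _).union (countable_range _))) default
  exact ⟨g, h _ (Or.inl (by simp)), h _ (Or.inl (by simp)), h _ (Or.inl (by simp)),
    h _ (Or.inl (by simp)), fun N L => h _ (Or.inr (Or.inl ⟨(N, L), rfl⟩)),
    h _ (Or.inl (by simp)), fun k => h _ (Or.inr (Or.inr ⟨k, rfl⟩)), h _ (Or.inl (by simp)),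
    h _ (Or.inl (by simp)), h _ (Or.inl (by simp)), h _ (Or.inl (by simp)),
    h _ (Or.inl (by simp)), h _ (Or.inl (by simp)), h _ (Or.inl (by simp))⟩

variable {g : Gen (Pos I)}

theorem ev_le (g : Gen (Pos I)) (n : ℕ) : ∀ᶠ q in g.fil, q ≤ g.h n := ⟨n, fun _ h => h⟩

theorem Good.code_mem (hg : Good g) : code (fun k => k + 2) ∈ g.M := by
  obtain ⟨n, ⟨S, hS, h⟩ | h⟩ := hg.m7 [] (by simp)
  · obtain ⟨f, a, b⟩ := π_an hg.val (hS h) (Eventually.of_forall fun _ k => CD.const _ _)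
    rw [show (fun k => k + 2) = f from funext fun k => let ⟨_, c⟩ := (b k).exists; c default, ← a]
    exact Gen.π_mem_M (hS h)
  · exact absurd rfl (h _ le_rfl {_} (countable_singleton _))

theorem Good.exists_Fn (hg : Good g) (hI : Long I) {τ : Name (Pos I)} (hτ : τ ∈ g.N) {b : ℕ → ℕ}
    (e : g.π τ = code b) (hb : Tendsto b atTop atTop) :
    ∃ β, Fn τ β ∈ g.N ∧ ∀ᶠ q in g.fil, RB τ β q := by
  obtain ⟨n, ⟨S, hS, β, a, c⟩ | h⟩ := hg.m1 [τ] (Gen.l1 hτ)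
  · exact ⟨β, hS a, n, fun q hq => c.mono hq⟩
  · obtain ⟨q, a, c, d⟩ := ((ev_le g n).and ((ev_isR hg.tot hg.eq hτ e).and
      (ev_div hg.div hg.big hτ e hb))).exists
    obtain ⟨r, hr, β, h'⟩ := exists_RB hI c d
    exact absurd ⟨β, rfl, h'⟩ (h r (hr.trans a) {Fn τ β} (countable_singleton _))

theorem Good.mem_Fn (hg : Good g) {τ : Name (Pos I)} (hτ : τ ∈ g.N) {b : ℕ → ℕ}
    (e : g.π τ = code b) {β : I} (hF : Fn τ β ∈ g.N) {y : ZFSet.{0}} (hy : y ∈ g.π (Fn τ β)) :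
    ∃ f ∈ Prd b, code f = y := by
  obtain ⟨i, a, rfl, c⟩ := Gen.exists_child hF hy
  have c' : ∀ᶠ q in g.fil, Gd τ i q := c.mono fun q ⟨s, hs, h⟩ => Gd.mono h hs
  obtain ⟨f, d, h⟩ := π_an hg.val a (c'.mono fun q ⟨_, _, h, _⟩ => h)
  refine ⟨f, fun k => ?_, d.symm⟩
  obtain ⟨q, ⟨ψ, h1, -, h2⟩, h3, h4, h5⟩ := (c'.and ((h k).and ((ev_isR hg.tot hg.eq hτ e).and
    ((ev_val hτ e (k := k)).2 rfl)))).exists
  rw [← h3 default, ← h1.unique (R' := Val τ k) (fun _ _ _ a b => a.mono b) (h4.2 k) h5 default]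
  exact h2 _ _

theorem Good.avoid (hg : Good g) {τ : Name (Pos I)} (hτ : τ ∈ g.N) {b : ℕ → ℕ}
    (e : g.π τ = code b) {β : I} (hF : Fn τ β ∈ g.N) (hR : ∀ᶠ q in g.fil, RB τ β q)
    {h : ℕ → ℕ} (hh : code h ∈ g.M) (hb : h ∈ Prd b) :
    ∃ f, code f ∈ g.π (Fn τ β) ∧ ∀ k, f k = h k → b k ≤ 1 := by
  obtain ⟨η, hη, e'⟩ := Gen.mem_M.1 hh
  obtain ⟨n, ⟨S, hS, σ, a, c, d⟩ | h'⟩ := hg.m2 [η, Fn τ β, τ] (Gen.l3 hη hF hτ)
  · have h1 := (Gen.π_mem_iff (hS a) hF).2 ⟨n, fun q hq => Fmem.mono c hq⟩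
    obtain ⟨f, -, hf⟩ := hg.mem_Fn hτ e hF h1
    refine ⟨f, hf ▸ h1, fun k hk => ?_⟩
    obtain ⟨q, h2, h3, h4, h5⟩ := ((ev_le g n).and (((ev_val (hS a) hf.symm).2 hk).and
      (((ev_val hη e' (k := k)).2 rfl).and ((ev_val hτ e (k := k)).2 rfl)))).exists
    exact d k _ _ q h2 h3 h4 h5
  · obtain ⟨q, a, c, d, h1, h2⟩ := ((ev_le g n).and ((ev_isR hg.tot hg.eq hη e').and
      ((ev_isR hg.tot hg.eq hτ e).and (hR.and
        (ev_rel hg.lt hη hτ e' e fun k k' hk => hk ▸ hb k))))).exists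
    obtain ⟨r, hr, σ, h3, h4⟩ := exists_avd c d h1 fun k v v' r hr a b => h2 k v k v' r hr a b rfl
    exact absurd ⟨σ, rfl, h3, h4⟩ (h' r (hr.trans a) {σ} (countable_singleton _))

theorem Good.small (hg : Good g) (hI : Long I) {A : Set (ℕ → Bool)} {F : Set (ℕ → ℕ)}
    {τ : Name (Pos I)} (hτ : τ ∈ g.N) (hι : #τ.ι ≤ 𝔠) (hF : ∀ f ∈ F, code f ∈ g.π τ)
    (hA : SetIn g.M (bin '' A)) (hi : InjIn g.M (bin '' A) F) : InE g.M A := by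
  obtain ⟨_, hz, hA⟩ := hA
  obtain ⟨χ, hχ, rfl⟩ := Gen.mem_M.1 hz
  obtain ⟨_, hz, φ, h1, h2, h3⟩ := hi
  obtain ⟨γ, hγ, rfl⟩ := Gen.mem_M.1 hz
  obtain ⟨n, ⟨S, hS, α, a, c, d⟩ | h'⟩ := hg.m3 [χ] (Gen.l1 hχ)
  · obtain ⟨z, z1, z2⟩ := π_an hg.val (hS a) (Eventually.of_forall fun q => cd_Z α q)
    obtain ⟨w, w1, w2⟩ := π_an hg.val (hS c) (Eventually.of_forall fun q => cd_Cd α q)
    have e : w = Cd z := funext fun t => by
      obtain ⟨l, hl⟩ := Cd_congr t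
      obtain ⟨q, h4, h5⟩ := ((w2 t).and ((eventually_all_finite (finite_Iio l)).2
        fun j _ => z2 j)).exists
      exact (h4 default).symm.trans (hl _ _ fun j hj => h5 j hj default)
    refine ⟨Cd z, e ▸ w1 ▸ Gen.π_mem_M (hS c), null_cls z, fun x hx => ?_⟩
    obtain ⟨ρ, hρ, e', h4⟩ := Gen.exists_of_mem_π ((hA _).2 ⟨_, ⟨x, hx, rfl⟩, rfl⟩)
    rcases meets_dec hg.m6 (fun l p q ⟨n, b⟩ hq => ⟨n, b.mono hq⟩) [ρ, an (Z α)]
      (Gen.l2 hρ (hS a)) with h5 | h5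
    · obtain ⟨m, hm⟩ := ev_exists (u := fun n => Cov ρ (an (Z α)) n)
        (fun n p q b hq => b.mono hq) h5
      refine mem_iUnion.2 ⟨m, mem_cls.2 fun j hj => ?_⟩
      obtain ⟨q, b1, b2, b3, b4⟩ := (hm.and (((ev_val (hS a) z1 (k := j)).2 rfl).and
        (((ev_val hρ e' (k := (z j).unpair.1)).2 rfl).and
          ((ev_val hρ e' (k := (z j).unpair.2)).2 rfl)))).exists
      obtain ⟨c1, c2, c3⟩ := b1 j hj q le_rfl _ b2
      exact ⟨c1, c2, (Bool.ofNat_toNat _).symm.trans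
        ((congrArg Bool.ofNat (c3 _ _ b3 b4)).trans (Bool.ofNat_toNat _))⟩
    · obtain ⟨q, b1, b2, b3⟩ := ((ev_le g n).and (h4.and h5)).exists
      obtain ⟨s, hs, b4⟩ := d ρ q b1 b2
      exact absurd b4 (b3 s hs)
  · exfalso
    obtain ⟨n₄, ⟨S, hS, ρ, a, c, d⟩ | h4⟩ := hg.m4 [χ, γ, τ] (Gen.l3 hχ hγ hτ)
    · obtain ⟨_, ⟨x, hx, rfl⟩, e⟩ := (hA _).1
        ((Gen.π_mem_iff (hS a) hχ).2 ⟨n₄, fun q hq => Fmem.mono c hq⟩)
      obtain ⟨i, b1, b2, -⟩ := Gen.exists_child hτ (hF _ (h1 ⟨x, hx, rfl⟩))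
      have b3 := (Gen.pair_mem_iff (hS a) b1 hγ).1 ((h3 _).2 ⟨_, ⟨x, hx, rfl⟩, by rw [e, b2]⟩)
      obtain ⟨q, c1, c2, c3, c4⟩ := ((ev_le g n₄).and (b3.and ((ev_isR hg.tot hg.eq (hS a)
        e.symm).and (ev_rel hg.two (hS a) (hS a) e.symm e.symm fun k _ =>
          Bool.toNat_lt (x k))))).exists
      exact d q c1 ⟨i, ⟨c3, fun k v r hr b => c4 k v k v r hr b b⟩, c2⟩
    obtain ⟨n₅, ⟨S, hS, ρ, a, ρ', a', σ, b, c, c', k, v, v', d, e, e'⟩ | h5⟩ :=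
      hg.m5 [γ] (Gen.l1 hγ)
    · obtain ⟨x, hx, b1⟩ := (h3 _).1 ((Gen.pair_mem_iff (hS a) (hS b) hγ).2
        ⟨n₅, fun q hq => Fmem.mono c hq⟩)
      obtain ⟨x', hx', b2⟩ := (h3 _).1 ((Gen.pair_mem_iff (hS a') (hS b) hγ).2
        ⟨n₅, fun q hq => Fmem.mono c' hq⟩)
      rw [ZFSet.pair_inj] at b1 b2
      obtain rfl := h2 hx hx' (code_inj (b1.2.trans b2.2.symm))
      exact d (((ev_val (hS a) b1.1.symm).1 ⟨n₅, fun q hq => e.mono hq⟩).symm.trans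
        ((ev_val (hS a') b2.1.symm).1 ⟨n₅, fun q hq => e'.mono hq⟩))
    obtain ⟨q, a, a4, a5⟩ := ((ev_le g n).and ((ev_le g n₄).and (ev_le g n₅))).exists
    obtain ⟨α, hα⟩ := exists_cov hI hι (q := q)
      (R := fun ρ i r => IsB ρ r ∧ Fmem (op ρ (τ.A i)) γ r)
      (fun ρ i p q h hq => ⟨h.1.mono hq, h.2.mono hq⟩) (fun _ _ _ _ h => h.1)
      fun ρ ρ' i k v v' r hr b b' c c' => by
        by_contra hc
        exact h5 r (hr.trans a5) {ρ, ρ', τ.A i} (toFinite _).countable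
          ⟨ρ, by simp, ρ', by simp, τ.A i, by simp, b.2, b'.2, k, v, v', hc, c, c'⟩
    refine h' q a {an (Z α), an fun y => Cd (Z α y)} (toFinite _).countable
      ⟨α, by simp, by simp, fun ρ r hr hρ => ?_⟩
    by_contra hc
    refine h4 r (hr.trans a4) {ρ} (countable_singleton _) ⟨ρ, rfl, hρ, fun s hs ⟨i, b⟩ => hc ?_⟩
    obtain ⟨t, ht, b'⟩ := hα ρ i s (hs.trans hr) b
    exact ⟨t, ht.trans hs, b'⟩

theorem Good.main (hg : Good g) (hI : Long I) {b : ℕ → ℕ} (hb : code b ∈ g.M)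
    (hd : Tendsto b atTop atTop) : BeqLtNonE g.M b := by
  obtain ⟨τ, hτ, e⟩ := Gen.mem_M.1 hb
  obtain ⟨β, hF, hR⟩ := hg.exists_Fn hI hτ e hd
  refine ⟨{f | code f ∈ g.π (Fn τ β)}, fun f hf => ?_, ⟨_, Gen.π_mem_M hF, fun y =>
    ⟨fun hy => ?_, fun ⟨f, a, c⟩ => c ▸ a⟩⟩, fun ⟨i, h, _, a, c, d, h'⟩ => ?_,
    fun A a c d => c (hg.small hI hF (card_Ix hI β) (fun f hf => hf) a d)⟩
  · obtain ⟨f', a, c⟩ := hg.mem_Fn hτ e hF (y := code f) hf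
    exact code_inj c ▸ a
  · obtain ⟨f, -, rfl⟩ := hg.mem_Fn hτ e hF hy
    exact ⟨f, hy, rfl⟩
  · obtain ⟨f, h1, h2⟩ := hg.avoid hτ e hF hR a d
    obtain ⟨L, hL⟩ := eventually_atTop.1 (hd.eventually_gt_atTop 1)
    obtain ⟨n, ⟨k, h3, -, h4⟩, h5⟩ := ((h' f h1).and (eventually_ge_atTop L)).exists
    exact not_lt.2 (h2 k h4) (hL k (h5.trans ((c.2.id_le n).trans h3)))

theorem exists_model : ∃ M, IsCTM M ∧ code (fun k => k + 2) ∈ M ∧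
    ∀ b, code b ∈ M → Tendsto b atTop atTop → BeqLtNonE M b :=
  let ⟨g, hg⟩ := exists_good (I := (Order.succ 𝔠).ord.ToType)
  ⟨g.M, Gen.isCTM, hg.code_mem, fun _ hb hd => hg.main long_succ hb hd⟩

end Pool.Agent.Lib.MP_60e7f9_lc
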