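import Mathlib
import Pool.Agent.Lib.Common.BushyIter.Thin
import Pool.Agent.Lib.Common.BushyIter.Count
import Pool.Agent.Lib.MP_60e7f9_lc.Reals
import Pool.Agent.Lib.MP_60e7f9_lc.Coin
import Pool.Agent.Lib.MP_60e7f9_lc.Defs2

/-!
The second forcing notion, continuous reading of names and the density arguments.
-/

set_option autoImplicit false
set_option linter.unusedSectionVars false

namespace Pool.Agent.Lib.MP_60e7f9_lc.Dual

open Set Filter Function Pool.Agent.Lib.Common.Forcing Pool.Agent.Lib.Common.BushyIter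
open scoped Cardinal
open Pool.Agent.Lib.Common.TreeIter (W sp co lv Long sp_zero_mono)

variable {I : Type} [LinearOrder I] [WellFoundedLT I]

/-- The forcing notion. -/
def Ps (θ : W I → ℕ) : Type := {p : Cr I // Cnd θ univ p}

variable {θ : W I → ℕ}

instance : Preorder (Ps θ) where
  le q p := bd q.1 ⊆ bd p.1
  le_refl _ := subset_rfl
  le_trans _ _ _ := Subset.trans

theorem exists_cyl {Y : Sort*} {f : Pt I → Y} (hf : FD univ f) {q : Ps θ} {x : Pt I}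
    (hx : x ∈ bd q.1) : ∃ r ≤ q, ∀ y ∈ bd r.1, f y = f x :=
  let ⟨_, a, b, c⟩ := hf
  let ⟨r, r1, r2, _, r3⟩ := q.2.cyl isLowerSet_univ a b hx
  ⟨⟨r, r1⟩, r2, fun y hy => c y x (r3 y hy)⟩

/-- The relation `R` is read from the generic point by `ψ`. -/
def Reads (R : ℕ → ℕ → Ps θ → Prop) (ψ : Pt I → ℕ → ℕ) (q : Ps θ) : Prop :=
  (∀ k, FD univ fun x => ψ x k) ∧ ∀ k v, ∀ r ≤ q, (∀ y ∈ bd r.1, ψ y k = v) → Dn (R k v) r

section
variable {R : ℕ → ℕ → Ps θ → Prop} {ψ : Pt I → ℕ → ℕ} {p q : Ps θ}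

theorem Reads.mono (h : Reads R ψ p) (hq : q ≤ p) : Reads R ψ q :=
  ⟨h.1, fun k v r hr => h.2 k v r (hr.trans hq)⟩

theorem Reads.exists (h : Reads R ψ q) (k : ℕ) {x : Pt I} (hx : x ∈ bd q.1) :
    ∃ r ≤ q, (∀ y ∈ bd r.1, ψ y k = ψ x k) ∧ R k (ψ x k) r := by
  obtain ⟨r, a, b⟩ := exists_cyl (h.1 k) hx
  obtain ⟨s, c, d⟩ := h.2 k _ r a b r le_rfl
  exact ⟨s, c.trans a, fun y hy => b y (c hy), d⟩

theorem exists_reads (hm : ∀ k v p q, R k v p → q ≤ p → R k v q)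
    (hd : ∀ k, Dn (fun r => ∃ v, R k v r) q) : ∃ r ≤ q, ∃ ψ, Reads R ψ r := by
  obtain ⟨w, hw, hwq, hl⟩ := cr_univ (θ := θ) (fun k p => ∃ hp : Cnd θ univ p,
      (∃ v, R k v ⟨p, hp⟩) ∨ ∀ r : Ps θ, r ≤ ⟨p, hp⟩ → ¬ r ≤ q)
    (fun k p p' ⟨a, b⟩ c d => ⟨c, b.imp (fun ⟨v, b⟩ => ⟨v, hm _ _ _ _ b d⟩)
      fun b r hr => b r (Subset.trans hr d)⟩)
    (fun k p hp => by
      by_cases h : ∃ r : Ps θ, r ≤ ⟨p, hp⟩ ∧ r ≤ q
      · obtain ⟨r, a, b⟩ := h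
        obtain ⟨s, c, d⟩ := hd k r b
        exact ⟨s.1, s.2, c.trans a, s.2, Or.inl d⟩
      · exact ⟨p, hp, subset_rfl, hp, Or.inr fun r a b => h ⟨r, a, b⟩⟩) q.1 q.2
  choose E e1 e2 e3 e4 using fun k => (hl k).closed hw isLowerSet_univ
  let V : ℕ → Cr I → ℕ := fun k u => Classical.epsilon fun v => ∃ hp : Cnd θ univ u, R k v ⟨u, hp⟩
  refine ⟨⟨w, hw⟩, hwq, fun x k => V k (fixc (E k) x w), fun k =>
    ⟨E k, e1 k, e2 k, fun x y e => congrArg (V k) (fixc_congr e w)⟩, fun k v r hr hy s hs => ?_⟩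
  obtain ⟨y, y1⟩ := s.2.nonempty
  have y2 : y ∈ bd w := hr (hs y1)
  have hb := fun z => (e3 k).mem_bd (y := z) fun s _ => y2 s
  obtain ⟨a, b⟩ := e4 k y y2
  obtain ⟨v', b⟩ := b.resolve_right fun b => b _ le_rfl fun z hz => hwq ((hb z).1 hz).1
  obtain ⟨c, d⟩ := Classical.epsilon_spec
    (p := fun v => ∃ hp : Cnd θ univ (fixc (E k) y w), R k v ⟨_, hp⟩) ⟨v', a, b⟩
  obtain ⟨t, t1, t2, -, t3⟩ := s.2.cyl isLowerSet_univ (e1 k) (e2 k) y1
  have d' : R k (V k (fixc (E k) y w)) ⟨_, c⟩ := d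
  rw [show V k (fixc (E k) y w) = v from hy y (hs y1)] at d'
  refine ⟨⟨t, t1⟩, t2, hm _ _ _ _ d' fun z hz => ?_⟩
  exact (hb z).2 ⟨hr (hs (t2 hz)), t3 z hz⟩

end

theorem exists_val_reads {τ : Name (Ps θ)} {q : Ps θ} (h : IsR τ q) :
    ∃ r ≤ q, ∃ ψ, Reads (Val τ) ψ r := exists_reads (fun _ _ _ _ a b => a.mono b) h.1

theorem Reads.val {τ : Name (Ps θ)} {ψ : Pt I → ℕ → ℕ} {q : Ps θ} (h : Reads (Val τ) ψ q)
    (hR : IsR τ q) {k v : ℕ} (hv : Val τ k v q) {x : Pt I} (hx : x ∈ bd q.1) : ψ x k = v :=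
  let ⟨r, a, _, c⟩ := h.exists k hx
  hR.2 k _ _ r a c (hv.mono a)

/-- The name of the real computed from the generic point by `Ψ`. -/
noncomputable def an (θ : W I → ℕ) (Ψ : Pt I → ℕ → ℕ) : Name (Ps θ) :=
  rn fun k v r => ∀ y ∈ bd r.1, Ψ y k = v

theorem val_an {Ψ : Pt I → ℕ → ℕ} {k v : ℕ} {q : Ps θ} (h : FD univ fun y => Ψ y k) :
    Val (an θ Ψ) k v q ↔ ∀ y ∈ bd q.1, Ψ y k = v := by
  rw [an, val_rn fun k v p q h hq y hy => h y (hq hy)]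
  refine ⟨fun h' y hy => ?_, fun h' r hr => ⟨r, le_rfl, fun y hy => h' y (hr hy)⟩⟩
  obtain ⟨r, a, b⟩ := exists_cyl h hy
  obtain ⟨s, c, d⟩ := h' r a
  obtain ⟨z, hz⟩ := s.2.nonempty
  exact (b z (c hz)).symm.trans (d z hz)

theorem π_an {g : Gen (Ps θ)} (hW : ∀ k, g.Meets (jV k)) {Ψ : Pt I → ℕ → ℕ} (hN : an θ Ψ ∈ g.N)
    (h : ∀ k, FD univ fun y => Ψ y k) :
    ∃ f, g.π (an θ Ψ) = code f ∧ ∀ k, ∀ᶠ q in g.fil, ∀ y ∈ bd q.1, Ψ y k = f k := by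
  have h1 : ∀ k, ∃ v, ∀ᶠ q in g.fil, ∀ y ∈ bd q.1, Ψ y k = v := fun k => by
    rcases meets_dec (hW k) (fun l p q ⟨v, b⟩ hq => ⟨v, b.mono hq⟩) [an θ Ψ] (Gen.l1 hN) with a | a
    · obtain ⟨v, hv⟩ := ev_exists (u := fun v => Val (an θ Ψ) k v) (fun v p q b hq => b.mono hq) a
      exact ⟨v, hv.mono fun q hq => (val_an (h k)).1 hq⟩
    · obtain ⟨q, b⟩ := a.exists
      obtain ⟨x, hx⟩ := q.2.nonempty
      obtain ⟨r, c, d⟩ := exists_cyl (h k) hx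
      exact absurd ⟨_, (val_an (h k)).2 d⟩ (b r c)
  choose f hf using h1
  refine ⟨f, π_rn hN fun k v => ⟨fun a => ?_, ?_⟩, hf⟩
  · obtain ⟨q, b, d⟩ := (a.and (hf k)).exists
    obtain ⟨x, hx⟩ := q.2.nonempty
    exact (d x hx).symm.trans ((val_an (h k)).1 b x hx)
  · rintro rfl
    exact (hf k).mono fun q hq => (val_an (h k)).2 hq

theorem π_const {g : Gen (Ps θ)} (hW : ∀ k, g.Meets (jV k)) {c : ℕ → ℕ}
    (hN : an θ (fun _ => c) ∈ g.N) : g.π (an θ fun _ => c) = code c := by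
  obtain ⟨f, a, b⟩ := π_an hW hN fun k => FD.const _ _
  rw [a]
  refine congrArg code (funext fun k => ?_)
  obtain ⟨q, hq⟩ := (b k).exists
  obtain ⟨x, hx⟩ := q.2.nonempty
  exact (hq x hx).symm

theorem coin_cyl {M : ℕ} (A : Finset (Fin M → Bool)) :
    coin {y | (fun i : Fin M => y i) ∈ A} ≤ A.card / 2 ^ M := by
  have h1 : ∀ a : Fin M → Bool, coin {y | (fun i : Fin M => y i) = a} = 1 / 2 ^ M := fun a => by
    have : {y : ℕ → Bool | (fun i : Fin M => y i) = a} =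
        Set.pi (Finset.range M) fun k => {b | ∀ h : k < M, b = a ⟨k, h⟩} := by
      ext y
      simp only [mem_ofPred_eq, funext_iff, Set.mem_pi, Finset.coe_range, mem_Iio]
      exact ⟨fun h k _ hk => h ⟨k, hk⟩, fun h i => h i i.2 i.2⟩
    rw [this, coin, MeasureTheory.Measure.infinitePi_pi _ fun _ _ => MeasurableSet.of_discrete,
      Finset.prod_congr rfl (g := fun _ => 2⁻¹) fun k hk => by
        have hk := Finset.mem_range.1 hk
        rw [show {b | ∀ h : k < M, b = a ⟨k, h⟩} = {a ⟨k, hk⟩} from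
          Set.ext fun b => ⟨fun h => h hk, fun h _ => h⟩, ProbabilityTheory.uniformOn_univ]
        simp]
    simp [ENNReal.inv_pow]
  have h2 : {y : ℕ → Bool | (fun i : Fin M => y i) ∈ A} =
      ⋃ a ∈ A, {y | (fun i : Fin M => y i) = a} := by ext y; simp
  rw [h2]
  refine (MeasureTheory.measure_biUnion_finset_le _ _).trans_eq ?_
  simp [h1, div_eq_mul_inv]

/-- The real `ρ` is forced to be a branch of the first set coded by `c`. -/
def Cv (ρ : Name (Ps θ)) (c : ℕ → ℕ) (q : Ps θ) : Prop :=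
  ∀ l, ∀ r ≤ q, ∀ x : ℕ → Bool, (∀ i < l, Val ρ i (bin x i) r) →
    c (Nat.pair 0 (Encodable.encode (List.ofFn fun i : Fin l => x i))) = 0

theorem exists_cv {ρ : Name (Ps θ)} {q : Ps θ} (h : IsR ρ q) :
    ∃ r ≤ q, ∃ c, (∀ n, coin (cls c n) = 0) ∧ Cv ρ c r := by
  classical
  obtain ⟨r, hr, ψ, hψ⟩ := exists_val_reads h
  obtain ⟨w, w1, w2, w3⟩ := thin r.2 (ψ := fun x k => Bool.ofNat (ψ x k)) fun k => (hψ.1 k).map _
  choose M A a b using w3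
  let c : ℕ → ℕ := fun t => if ∃ y : ℕ → Bool, (∀ k, (fun i : Fin (M k) => y i) ∈ A k) ∧
    ∃ l, t.unpair.2 = Encodable.encode (List.ofFn fun i : Fin l => y i) then 0 else 1
  refine ⟨⟨w, w1⟩, Subset.trans w2 hr, c, fun n => ?_, fun l s hs x hx => if_pos ?_⟩
  · have h1 : ∀ k, cls c n ⊆ {y | (fun i : Fin (M k) => y i) ∈ A k} := fun k x hx => by
      have := hx (M k)
      simp only [c, ite_eq_left_iff, one_ne_zero, imp_false, not_not, Nat.unpair_pair,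
        Encodable.encode_inj] at this
      obtain ⟨y, y1, l, e⟩ := this
      obtain rfl : M k = l := by simpa using congrArg List.length e
      rw [mem_ofPred_eq, List.ofFn_injective e]
      exact y1 k
    have h2 : ∀ k, coin (cls c n) ≤ 2 * 2⁻¹ ^ k := fun k => by
      refine ((MeasureTheory.measure_mono (h1 k)).trans (coin_cyl _)).trans ?_
      rw [ENNReal.div_le_iff (by simp) (by simp)]
      have := ENNReal.ofReal_le_ofReal (a k)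
      rw [ENNReal.ofReal_natCast, ENNReal.ofReal_mul (by positivity),
        ENNReal.ofReal_div_of_pos (by positivity), ENNReal.ofReal_pow (by norm_num),
        ENNReal.ofReal_pow (by norm_num)] at this
      simpa [div_eq_mul_inv, ENNReal.inv_pow] using this
    refine le_antisymm (ge_of_tendsto' (x := atTop) ?_ h2) bot_le
    simpa using ENNReal.Tendsto.const_mul (a := 2)
      (ENNReal.tendsto_pow_atTop_nhds_zero_of_lt_one (r := 2⁻¹) (by simp)) (Or.inr (by simp))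
  · obtain ⟨y, hy⟩ := s.2.nonempty
    have hsr : s ≤ r := Subset.trans hs w2
    refine ⟨fun k => Bool.ofNat (ψ y k), fun k => b k y (hs hy), l, ?_⟩
    rw [Nat.unpair_pair]
    refine congrArg _ (congrArg _ (funext fun i => ?_))
    beta_reduce
    rw [(hψ.mono hsr).val (h.mono (hsr.trans hr)) (hx i i.2) hy]
    exact (Bool.ofNat_toNat _).symm

theorem exists_lower {τ : Name (Ps θ)} {q : Ps θ}
    (h0 : ∀ k v, ∀ r ≤ q, Val τ k v r → 0 < v) (hd : ∀ N, Dn (fun r => ∃ L, Big τ N L r) q) :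
    ∃ r ≤ q, ∃ b : ℕ → ℕ, (∀ k, 0 < b k) ∧ Tendsto b atTop atTop ∧
      ∀ k v, ∀ s ≤ r, Val τ k v s → b k ≤ v := by
  classical
  obtain ⟨r, hr, L, hL⟩ := exists_reads (R := Big τ) (fun _ _ _ _ a b => a.mono b) hd
  choose B hB using fun N => r.2.bddAbove (hL.1 N)
  refine ⟨r, hr, fun k => Nat.findGreatest (fun N => B N ≤ k) k + 1, fun k => Nat.succ_pos _,
    tendsto_atTop.2 fun N => (eventually_ge_atTop (max N (B N))).mono fun k hk =>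
      (Nat.le_findGreatest (P := fun N => B N ≤ k) (le_of_max_le_left hk)
        (le_of_max_le_right hk)).trans (Nat.le_succ _),
    fun k v s hs hv => ?_⟩
  rcases Nat.eq_zero_or_pos (Nat.findGreatest (fun N => B N ≤ k) k) with e | e
  · simp only [e]
    exact h0 k v s (hs.trans hr) hv
  · have h1 := Nat.findGreatest_of_ne_zero rfl e.ne'
    obtain ⟨y, hy⟩ := s.2.nonempty
    obtain ⟨t, a, -, b⟩ := (hL.mono hs).exists (Nat.findGreatest (fun N => B N ≤ k) k) hy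
    exact b k v t le_rfl (hv.mono a) ((hB _ y (hs hy)).trans h1)

/-- The generic function at the coordinate `α`. -/
def Z (α : I) (y : Pt I) (k : ℕ) : ℕ := y (sp α k)

theorem fd_Z (α : I) (k : ℕ) : FD univ fun y : Pt I => Z α y k := FD.spot trivial

/-- From `L` on the real `σ` differs from the second component of the real `ρ`. -/
def Avd (ρ σ : Name (Ps θ)) (L : ℕ) (q : Ps θ) : Prop :=
  ∀ k ≥ L, ∀ r ≤ q, ∀ v w, Val σ k v r → Val ρ k w r → v ≠ w.unpair.2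

theorem Avd.mono {ρ σ : Name (Ps θ)} {L : ℕ} {p q : Ps θ} (h : Avd ρ σ L p) (hq : q ≤ p) :
    Avd ρ σ L q := fun k hk r hr => h k hk r (hr.trans hq)

theorem exists_diag (hI : Long I) {ι : Type} (hι : #ι ≤ 𝔠) {R : Name (Ps θ) → ι → Ps θ → Prop}
    (hm : ∀ ρ i p q, R ρ i p → q ≤ p → R ρ i q) {q : Ps θ}
    (hb : ∀ ρ i, ∀ r ≤ q, R ρ i r → IsR ρ r)
    (hu : ∀ ρ ρ' i k v v', ∀ r ≤ q, R ρ i r → R ρ' i r → Val ρ k v r → Val ρ' k v' r → v = v') :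
    ∃ β, ∀ α ≥ β, ∀ ρ i, ∀ r ≤ q, R ρ i r → ∃ s ≤ r, ∃ L, Avd ρ (an θ (Z α)) L s := by
  obtain ⟨γ₀, h₀⟩ := long_cnd hI q.2
  obtain ⟨β, hβ₀, hβ⟩ := long_reflect (θ := θ) hI hι (𝒟 := fun i γ w => ∃ hw : Cnd θ univ w,
    bd w ⊆ bd q.1 → (∃ ρ ψ, R ρ i ⟨w, hw⟩ ∧ Reads (Val ρ) ψ ⟨w, hw⟩ ∧
      ∀ k, FD (Iio (sp γ 0)) fun x => ψ x k) ∨ Neg (fun r => ∃ ρ, R ρ i r) ⟨w, hw⟩)
    (fun i β γ p h ⟨a, b⟩ => ⟨a, fun h' => (b h').imp_left fun ⟨ρ, ψ, c, d, e⟩ =>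
      ⟨ρ, ψ, c, d, fun k => (e k).mono (sp_zero_mono h)⟩⟩) (fun i p hp => by
      by_cases hpq : bd p ⊆ bd q.1
      · obtain ⟨r, hr, h | h⟩ := exists_decide (fun r => ∃ ρ, R ρ i r) (⟨p, hp⟩ : Ps θ)
        · obtain ⟨ρ, h⟩ := h
          obtain ⟨u, hu, ψ, a⟩ := exists_val_reads (hb ρ i r (Subset.trans hr hpq) h)
          obtain ⟨γ, hγ⟩ := long_fd hI a.1
          exact ⟨γ, u.1, u.2, hu.trans hr, u.2, fun _ => Or.inl ⟨ρ, ψ, hm _ _ _ _ h hu, a, hγ⟩⟩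
        · exact ⟨γ₀, r.1, r.2, hr, r.2, fun _ => Or.inr h⟩
      · exact ⟨γ₀, p, hp, subset_rfl, hp, fun h => absurd h hpq⟩) γ₀
  refine ⟨β, fun α hα ρ i r hr h => ?_⟩
  have hres := r.2.res (sp β 0)
  obtain ⟨w, w1, w2, a, b⟩ := hβ i _ hres
  have hwq : bd w ⊆ bd q.1 := fun x hx => (h₀.mono (sp_zero_mono hβ₀)).mem_bd
    (r.2.part q.2 hr (isLowerSet_Iio _) (mem_bd_glue.1 (w2 hx)).1) (w1.lt hx)
  let p : Ps θ := ⟨glue (sp β 0) w r.1, a.glue r.2 _⟩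
  have h1 : p ≤ ⟨w, a⟩ := fun x hx => w1.mem_bd (mem_bd_glue.1 hx).1 (p.2.lt hx)
  have h2 : p ≤ r := fun x hx s => (lt_or_ge s (sp β 0)).elim
    ((mem_bd_glue.1 (w2 (h1 hx))).1 s) ((mem_bd_glue.1 hx).2 s)
  have h' := hm _ _ _ _ h h2
  rcases b hwq with ⟨ρ', ψ, b1, b2, b3⟩ | b
  swap
  · exact absurd ⟨ρ, h'⟩ (b p h1)
  obtain ⟨t, L, t1, t2, t3⟩ := p.2.avoid α (h := fun x k => (ψ x k).unpair.2)
    fun k => ((b3 k).mono (sp_zero_mono hα)).map fun u => u.unpair.2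
  refine ⟨⟨t, t1⟩, Subset.trans t2 h2, L, fun k hk s hs v u hv hu' => ?_⟩
  have hsp : s ≤ p := Subset.trans hs t2
  obtain ⟨y, hy⟩ := s.2.nonempty
  obtain ⟨s', c1, -, c2⟩ := (b2.mono (hsp.trans h1)).exists k hy
  have c3 := c1.trans hsp
  rw [← (val_an (fd_Z α k)).1 hv y hy, ← hu ρ' ρ i k _ u s' (c3.trans (h2.trans hr))
    (hm _ _ _ _ b1 (c3.trans h1)) (hm _ _ _ _ h' c3) c2 (hu'.mono c1)]
  exact t3 y (hs hy) k hk

end Pool.Agent.Lib.MP_60e7f9_lc.Dual
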