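import Mathlib
import Pool.Agent.Lib.MP_60e7f9_lc.Pos2

/-!
The second model.
-/

set_option autoImplicit false
set_option linter.unusedSectionVars false

namespace Pool.Agent.Lib.MP_60e7f9_lc.Dual

open Set Filter Function Pool.Agent.Lib.Common.Forcing Pool.Agent.Lib.Common.BushyIter
open scoped Cardinal
open Pool.Agent.Lib.Common.TreeIter (W sp co lv Long long_succ card_fun_le)

variable {I : Type} [LinearOrder I] [WellFoundedLT I] {θ : W I → ℕ}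

/-- Codes of unions of closed null sets. -/
def Nul : Type := {c : ℕ → ℕ // ∀ n, coin (cls c n) = 0}

theorem card_le_real {u : (ℕ → ℕ) → Prop} : #{c // u c} ≤ 𝔠 :=
  (Cardinal.mk_subtype_le _).trans
    (card_fun_le (Cardinal.mk_le_aleph0.trans Cardinal.aleph0_le_continuum))

/-- The name of the family of ground codes. -/
noncomputable def Cn (θ : W I → ℕ) : Name (Ps θ) := fam fun c : Nul => an θ fun _ => c.1

def k0 : Job (Ps θ) := fun _ S _ => Cn θ ∈ S ∧ an θ (fun _ k => k + 2) ∈ S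

def k1 : Job (Ps θ) := fun l S q => ∃ c : Nul, an θ (fun _ => c.1) ∈ S ∧ Cv (l.getD 0 emp) c.1 q

def k3 : Job (Ps θ) := fun l S q => ∃ α, an θ (Z α) ∈ S ∧
  (∀ k v v', ∀ r ≤ q, Val (an θ (Z α)) k v r → Val (l.getD 1 emp) k v' r → v < v') ∧
  ∀ ρ, ∀ r ≤ q, Fmem ρ (l.getD 0 emp) r → ∃ s ≤ r, ∃ L, Avd ρ (an θ (Z α)) L s

def k4 : Job (Ps θ) := fun l S q => ∃ ρ ∈ S, Fmem ρ (l.getD 0 emp) q ∧
  Neg (fun r => ∃ i, IsR ρ r ∧ Fmem (op ρ ((Cn θ).A i)) (l.getD 1 emp) r) q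

def k5 : Job (Ps θ) := fun l S q => ∃ ρ ∈ S, ∃ ρ' ∈ S, ∃ σ ∈ S,
  Fmem (op ρ σ) (l.getD 0 emp) q ∧ Fmem (op ρ' σ) (l.getD 0 emp) q ∧
    ∃ k v v', v ≠ v' ∧ Val ρ k v q ∧ Val ρ' k v' q

def k6 : Job (Ps θ) := dec fun l q => ∃ L, Avd (l.getD 0 emp) (l.getD 1 emp) L q

/-- The tasks met by the generic sequence. -/
structure Good (g : Gen (Ps θ)) : Prop where
  tot : g.Meets jT
  eq : g.Meets (jR fun k v k' v' => k = k' → v = v')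
  pos : g.Meets (jR fun _ v _ _ => 0 < v)
  big : ∀ N L, g.Meets (jR fun k v _ _ => L ≤ k → N < v)
  div : g.Meets jD
  val : ∀ k, g.Meets (jV k)
  m0 : g.Meets k0
  m1 : g.Meets k1
  m3 : g.Meets k3
  m4 : g.Meets k4
  m5 : g.Meets k5
  m6 : g.Meets k6

theorem exists_good (p : Ps θ) : ∃ g : Gen (Ps θ), Good g := by
  obtain ⟨g, -, h⟩ := exists_gen (P := Ps θ) ({jT, jR fun k v k' v' => k = k' → v = v',
    jR fun _ v _ _ => 0 < v, jD, k0, k1, k3, k4, k5, k6} ∪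
    (range (fun c : ℕ × ℕ => jR fun k v _ _ => c.2 ≤ k → c.1 < v) ∪ range jV))
    ((toFinite _).countable.union ((countable_range _).union (countable_range _))) p
  exact ⟨g, h _ (Or.inl (by simp)), h _ (Or.inl (by simp)), h _ (Or.inl (by simp)),
    fun N L => h _ (Or.inr (Or.inl ⟨(N, L), rfl⟩)),
    h _ (Or.inl (by simp)), fun k => h _ (Or.inr (Or.inr ⟨k, rfl⟩)), h _ (Or.inl (by simp)),
    h _ (Or.inl (by simp)), h _ (Or.inl (by simp)), h _ (Or.inl (by simp)),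
    h _ (Or.inl (by simp)), h _ (Or.inl (by simp))⟩

variable {g : Gen (Ps θ)}

theorem ev_le (g : Gen (Ps θ)) (n : ℕ) : ∀ᶠ q in g.fil, q ≤ g.h n := ⟨n, fun _ h => h⟩

theorem Good.mem (hg : Good g) : Cn θ ∈ g.N ∧ an θ (fun _ k => k + 2) ∈ g.N := by
  obtain ⟨n, ⟨S, hS, h⟩ | h⟩ := hg.m0 [] (by simp)
  · exact ⟨hS h.1, hS h.2⟩
  · exact absurd ⟨by simp, by simp⟩
      (h _ le_rfl {Cn θ, an θ fun _ k => k + 2} (toFinite _).countable)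

theorem Good.mem_Cn (hg : Good g) {y : ZFSet.{0}} (hy : y ∈ g.π (Cn θ)) :
    ∃ c : Nul, code c.1 = y :=
  let ⟨i, a, b, _⟩ := Gen.exists_child hg.mem.1 hy
  ⟨i, (π_const hg.val a).symm.trans b⟩

theorem Good.cover (hg : Good g) {x : ℕ → Bool} (hx : code (bin x) ∈ g.M) :
    ∃ c, code c ∈ g.π (Cn θ) ∧ x ∈ cls c 0 := by
  obtain ⟨ρ, hρ, e⟩ := Gen.mem_M.1 hx
  obtain ⟨n, ⟨S, hS, c, a, b⟩ | h⟩ := hg.m1 [ρ] (Gen.l1 hρ)
  · refine ⟨c.1, π_const hg.val (hS a) ▸ (Gen.π_mem_iff (hS a) hg.mem.1).2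
      (Eventually.of_forall fun q => fmem_fam_self (fun c : Nul => an θ fun _ => c.1) c q),
      fun l => ?_⟩
    obtain ⟨q, h1, h2⟩ := ((ev_le g n).and ((eventually_all_finite (finite_Iio l)).2
      fun i _ => (ev_val hρ e (k := i)).2 rfl)).exists
    exact b l q h1 x h2
  · obtain ⟨q, a, b⟩ := ((ev_le g n).and (ev_isR hg.tot hg.eq hρ e)).exists
    obtain ⟨r, hr, c, d, h'⟩ := exists_cv b
    exact absurd ⟨⟨c, d⟩, rfl, h'⟩ (h r (hr.trans a) {_} (countable_singleton _))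

theorem Good.large (hg : Good g) (hI : Long I)
    (ht : ∀ b : ℕ → ℕ, (∀ k, 0 < b k) → Tendsto b atTop atTop → ∀ β, ∃ α ≥ β,
      ∀ k, θ (sp α k) = b k)
    {b : ℕ → ℕ} (hb : code b ∈ g.M) (hb1 : ∀ k, 1 ≤ b k) (hd : Tendsto b atTop atTop)
    {D : Set ((ℕ → ℕ) × (ℕ → ℕ))} {C : Set (ℕ → ℕ)} (hC : ∀ c ∈ C, code c ∈ g.π (Cn θ))
    (hD : SetIn g.M (pc '' D)) (hP : ∀ d ∈ D, IsPart d.1)
    (hdom : ∀ f ∈ Prd b, code f ∈ g.M → ∃ d ∈ D, Rel f d.1 d.2) : ¬ InjIn g.M (pc '' D) C := by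
  obtain ⟨τ, hτ, eτ⟩ := Gen.mem_M.1 hb
  obtain ⟨_, hz, hA⟩ := hD
  obtain ⟨χ, hχ, rfl⟩ := Gen.mem_M.1 hz
  rintro ⟨_, hz, φ, h1, h2, h3⟩
  obtain ⟨γ, hγ, rfl⟩ := Gen.mem_M.1 hz
  obtain ⟨n, ⟨S, hS, α, a, c, d⟩ | h'⟩ := hg.m3 [χ, τ] (Gen.l2 hχ hτ)
  · obtain ⟨f, f1, -⟩ := π_an hg.val (hS a) (fd_Z α)
    obtain ⟨⟨i, h⟩, hx, hr⟩ := hdom f (fun k => by
      obtain ⟨q, b1, b2, b3⟩ := ((ev_le g n).and (((ev_val (hS a) f1 (k := k)).2 rfl).and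
        ((ev_val hτ eτ (k := k)).2 rfl))).exists
      exact c k _ _ q b1 b2 b3) (f1 ▸ Gen.π_mem_M (hS a))
    obtain ⟨ρ, hρ, e', h4⟩ := Gen.exists_of_mem_π ((hA _).2 ⟨_, ⟨_, hx, rfl⟩, rfl⟩)
    rcases meets_dec hg.m6 (fun l p q ⟨n, b⟩ hq => ⟨n, b.mono hq⟩) [ρ, an θ (Z α)]
      (Gen.l2 hρ (hS a)) with h5 | h5
    · obtain ⟨L, hL⟩ := ev_exists (u := fun n => Avd ρ (an θ (Z α)) n)
        (fun n p q b hq => b.mono hq) h5
      obtain ⟨m, ⟨k, b1, -, b2⟩, b3⟩ := (hr.and (eventually_ge_atTop L)).exists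
      obtain ⟨q, c1, c2, c3⟩ := (hL.and (((ev_val (hS a) f1 (k := k)).2 rfl).and
        ((ev_val hρ e' (k := k)).2 rfl))).exists
      exact c1 k (b3.trans (((hP _ hx).2.id_le m).trans b1)) q le_rfl _ _ c2 c3
        (by simpa [pc] using b2)
    · obtain ⟨q, b1, b2, b3⟩ := ((ev_le g n).and (h4.and h5)).exists
      obtain ⟨s, hs, b4⟩ := d ρ q b1 b2
      exact absurd b4 (b3 s hs)
  obtain ⟨n₄, ⟨S, hS, ρ, a, c, d⟩ | h4⟩ := hg.m4 [χ, γ] (Gen.l2 hχ hγ)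
  · obtain ⟨x, hx, e⟩ := (hA _).1 ((Gen.π_mem_iff (hS a) hχ).2 ⟨n₄, fun q hq => Fmem.mono c hq⟩)
    obtain ⟨i, b1, b2, -⟩ := Gen.exists_child hg.mem.1 (hC _ (h1 hx))
    have b3 := (Gen.pair_mem_iff (hS a) b1 hγ).1 ((h3 _).2 ⟨_, hx, by rw [e, b2]⟩)
    obtain ⟨q, c1, c2, c3⟩ := ((ev_le g n₄).and (b3.and (ev_isR hg.tot hg.eq (hS a)
      e.symm))).exists
    exact d q c1 ⟨i, c3, c2⟩
  obtain ⟨n₅, ⟨S, hS, ρ, a, ρ', a', σ, b, c, c', k, v, v', d, e, e'⟩ | h5⟩ :=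
    hg.m5 [γ] (Gen.l1 hγ)
  · obtain ⟨x, hx, b1⟩ := (h3 _).1 ((Gen.pair_mem_iff (hS a) (hS b) hγ).2
      ⟨n₅, fun q hq => Fmem.mono c hq⟩)
    obtain ⟨x', hx', b2⟩ := (h3 _).1 ((Gen.pair_mem_iff (hS a') (hS b) hγ).2
      ⟨n₅, fun q hq => Fmem.mono c' hq⟩)
    rw [ZFSet.pair_inj] at b1 b2
    obtain rfl := h2 hx hx' (code_inj (b1.2.trans b2.2.symm))
    exact d (((ev_val (hS a) b1.1.symm).1 ⟨n₅, fun q hq => e.mono hq⟩).symm.trans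
      ((ev_val (hS a') b2.1.symm).1 ⟨n₅, fun q hq => e'.mono hq⟩))
  obtain ⟨q₀, a, a4, a5, a6, a7⟩ := ((ev_le g n).and ((ev_le g n₄).and ((ev_le g n₅).and
    ((ev_div hg.div hg.big hτ eτ hd).and
      (ev_rel hg.pos hτ hτ eτ eτ fun k _ => hb1 k))))).exists
  obtain ⟨q, hq, b', b1, b2, b3⟩ := exists_lower (fun k v r hr h => a7 k v k v r hr h h) a6
  obtain ⟨β, hβ⟩ := exists_diag hI (ι := Nul) card_le_real (q := q)
    (R := fun ρ i r => IsR ρ r ∧ Fmem (op ρ ((Cn θ).A i)) γ r)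
    (fun ρ i p q h hq => ⟨h.1.mono hq, h.2.mono hq⟩) (fun _ _ _ _ h => h.1)
    fun ρ ρ' i k v v' r hr b b' c c' => by
      by_contra hc
      exact h5 r (hr.trans (hq.trans a5)) {ρ, ρ', (Cn θ).A i} (toFinite _).countable
        ⟨ρ, by simp, ρ', by simp, (Cn θ).A i, by simp, b.2, b'.2, k, v, v', hc, c, c'⟩
  obtain ⟨α, hα, e⟩ := ht b' b1 b2 β
  refine h' q (hq.trans a) {an θ (Z α)} (countable_singleton _)
    ⟨α, rfl, fun k v v' r hr c1 c2 => ?_, fun ρ r hr hρ => ?_⟩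
  · obtain ⟨y, hy⟩ := r.2.nonempty
    rw [← (val_an (fd_Z α k)).1 c1 y hy]
    exact ((r.2.lt hy _).trans_eq (e k)).trans_le (b3 k v' r hr c2)
  · by_contra hc
    refine h4 r (hr.trans (hq.trans a4)) {ρ} (countable_singleton _)
      ⟨ρ, rfl, hρ, fun s hs ⟨i, b⟩ => hc ?_⟩
    obtain ⟨t, ht, b'⟩ := hβ α hα ρ i s (hs.trans hr) b
    exact ⟨t, ht.trans hs, b'⟩

theorem exists_model : ∃ M, IsCTM M ∧ code (fun k => k + 2) ∈ M ∧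
    ∀ b, code b ∈ M → (∀ k, 1 ≤ b k) → Tendsto b atTop atTop → CovLtDeq M b := by
  have : Nonempty {b : ℕ → ℕ // (∀ k, 0 < b k) ∧ Tendsto b atTop atTop} :=
    ⟨⟨fun k => k + 1, fun k => Nat.succ_pos k, tendsto_add_atTop_nat 1⟩⟩
  obtain ⟨t, ht⟩ := exists_labelling
    (B := {b : ℕ → ℕ // (∀ k, 0 < b k) ∧ Tendsto b atTop atTop}) card_le_real
  obtain ⟨g, hg⟩ := exists_good (θ := fun s => (t (co s)).1 (lv s)) ⟨top _, fun _ => FD.const _ _,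
    fun s _ => Finset.nonempty_range_iff.2 ((t _).2.1 _).ne', fun _ _ => subset_rfl,
    fun _ _ => rfl, by simp, fun α n =>
      (eventually_atTop.1 ((t α).2.2.eventually_ge_atTop n)).imp fun L hL j hj x => by
        simpa [top] using hL j hj⟩
  refine ⟨g.M, Gen.isCTM, π_const hg.val hg.mem.2 ▸ Gen.π_mem_M hg.mem.2, fun b h1 h2 h3 =>
    ⟨{c | code c ∈ g.π (Cn _)}, ⟨_, Gen.π_mem_M hg.mem.1, fun y => ⟨fun hy => ?_,
      fun ⟨c, a, b⟩ => b ▸ a⟩⟩, fun c hc => ?_, fun x hx => ?_, fun D d1 d2 d3 =>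
      hg.large long_succ (fun b b1 b2 β => ?_) h1 h2 h3 (fun c hc => hc) d1
        (fun d hd => (d2 d hd).1) d3⟩⟩
  · obtain ⟨c, rfl⟩ := hg.mem_Cn hy
    exact ⟨c.1, hy, rfl⟩
  · obtain ⟨c', e⟩ := hg.mem_Cn (y := code c) hc
    exact code_inj e ▸ c'.2
  · obtain ⟨c, a, b⟩ := hg.cover hx
    exact ⟨c, a, mem_iUnion.2 ⟨0, b⟩⟩
  · obtain ⟨α, a, e⟩ := ht ⟨b, b1, b2⟩ β
    exact ⟨α, a, fun k => by simp [e]⟩

end Pool.Agent.Lib.MP_60e7f9_lc.Dual
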