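import Mathlib

/-!
A forest of bounded width is covered by boundedly many threads, and every path in it moves
monotonically through the threads.
-/

set_option autoImplicit false

namespace Pool.Agent.Lib.MP_60e7f9_lc

open Set

variable {A : Type} [Finite A] [LinearOrder A] [Inhabited A]

/-- Restriction to the first `k` positions. -/
def rs (k : ℕ) (z : ℕ → A) : Fin k → A := fun j => z j

section
variable (S : ∀ k, Set (Fin k → A))

def alive (k : ℕ) (u : Fin (k + 1) → A) (l : ℕ) : Prop :=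
  ∃ z, rs (k + 1) z = u ∧ ∀ j, k ≤ j → j ≤ l → rs (j + 1) z ∈ S (j + 1)

noncomputable def life (k : ℕ) (u : Fin (k + 1) → A) : ℕ∞ := ⨆ (l : ℕ) (_ : alive S k u l), l

noncomputable def key (k : ℕ) (u : Fin (k + 1) → A) : ℕ∞ᵒᵈ ×ₗ Lex (Fin (k + 1) → A) :=
  toLex (OrderDual.toDual (life S k u), toLex u)

noncomputable def rank (k : ℕ) (u : Fin (k + 1) → A) : ℕ :=
  {v | v ∈ S (k + 1) ∧ key S k v < key S k u}.ncard

variable {S}

omit [Finite A] [LinearOrder A] [Inhabited A] in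
theorem le_life {k l : ℕ} {u : Fin (k + 1) → A} (h : alive S k u l) : (l : ℕ∞) ≤ life S k u :=
  le_iSup₂_of_le (f := fun (l : ℕ) (_ : alive S k u l) => (l : ℕ∞)) l h le_rfl

omit [Finite A] [Inhabited A] in
theorem key_lt_iff {k : ℕ} {u v : Fin (k + 1) → A} : key S k u < key S k v ↔
    life S k v < life S k u ∨ life S k u = life S k v ∧ toLex u < toLex v := by
  simp [key, Prod.Lex.toLex_lt_toLex]

omit [Finite A] [LinearOrder A] [Inhabited A] in
theorem key_inj {k : ℕ} {u v : Fin (k + 1) → A} (h : key S k u = key S k v) : u = v :=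
  congrArg (fun p : ℕ∞ᵒᵈ ×ₗ Lex (Fin (k + 1) → A) => ofLex (ofLex p).2) h

omit [Inhabited A] in
theorem rank_lt_rank {k : ℕ} {u v : Fin (k + 1) → A} (hu : u ∈ S (k + 1))
    (h : key S k u < key S k v) : rank S k u < rank S k v :=
  ncard_lt_ncard ⟨fun _ hw => ⟨hw.1, hw.2.trans h⟩, fun h' => lt_irrefl _ (h' ⟨hu, h⟩).2⟩
    (toFinite _)

omit [Inhabited A] in
theorem rank_inj {k : ℕ} {u v : Fin (k + 1) → A} (hu : u ∈ S (k + 1)) (hv : v ∈ S (k + 1))
    (h : rank S k u = rank S k v) : u = v := by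
  rcases lt_trichotomy (key S k u) (key S k v) with h' | h' | h'
  · exact absurd h (rank_lt_rank hu h').ne
  · exact key_inj h'
  · exact absurd h (rank_lt_rank hv h').ne'

omit [Inhabited A] in
theorem rank_lt {k : ℕ} {u : Fin (k + 1) → A} (hu : u ∈ S (k + 1)) :
    rank S k u < (S (k + 1)).ncard :=
  ncard_lt_ncard ⟨fun _ hw => hw.1, fun h' => lt_irrefl _ (h' hu).2⟩ (toFinite _)

omit [LinearOrder A] in
theorem exists_child {k : ℕ} {v : Fin (k + 1) → A} (h : ((k + 1 : ℕ) : ℕ∞) ≤ life S k v) :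
    ∃ u : Fin (k + 2) → A, Fin.init u = v ∧ u ∈ S (k + 2) ∧ life S k v ≤ life S (k + 1) u := by
  have hk : (k : ℕ∞) < life S k v := lt_of_lt_of_le (by exact_mod_cast Nat.lt_succ_self k) h
  obtain ⟨l, hl⟩ := lt_iSup_iff.1 hk
  obtain ⟨⟨z, h1, h2⟩, hl⟩ := lt_iSup_iff.1 hl
  have hl' : k < l := by exact_mod_cast hl
  obtain ⟨u, hu, hmax⟩ := exists_max_image {u : Fin (k + 2) → A | Fin.init u = v ∧ u ∈ S (k + 2)}
    (life S (k + 1)) (toFinite _) ⟨rs (k + 2) z, h1, h2 (k + 1) (by omega) hl'⟩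
  refine ⟨u, hu.1, hu.2, iSup₂_le fun l' ⟨z', h1', h2'⟩ => ?_⟩
  rcases le_or_gt l' (k + 1) with h' | h'
  · refine le_trans (Nat.cast_le.2 h') (le_life
      ⟨fun j => if h : j < k + 2 then u ⟨j, h⟩ else default, ?_, fun j a b => ?_⟩)
    · funext j; simp [rs, j.2]
    · obtain rfl : j = k + 1 := by omega
      have : rs (k + 1 + 1) (fun j => if h : j < k + 2 then u ⟨j, h⟩ else default) = u := by
        funext j; simp [rs, j.2]
      rw [this]
      exact hu.2
  · exact (le_life ⟨z', rfl, fun j a b => h2' j (by omega) b⟩).trans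
      (hmax (rs (k + 2) z') ⟨h1', h2' (k + 1) (by omega) h'.le⟩)

theorem rank_mono {k : ℕ} {z : ℕ → A} (h1 : rs (k + 1) z ∈ S (k + 1))
    (h2 : rs (k + 2) z ∈ S (k + 2)) : rank S k (rs (k + 1) z) ≤ rank S (k + 1) (rs (k + 2) z) := by
  have a1 : ((k + 1 : ℕ) : ℕ∞) ≤ life S k (rs (k + 1) z) := le_life ⟨z, rfl, fun j a b => by
    rcases a.lt_or_eq with h | rfl
    · obtain rfl : j = k + 1 := by omega
      exact h2
    · exact h1⟩
  have a2 : life S (k + 1) (rs (k + 2) z) ≤ life S k (rs (k + 1) z) :=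
    iSup₂_le fun l ⟨z', b1, b2⟩ => le_life ⟨z', congrArg Fin.init b1, fun j a b => by
      rcases a.lt_or_eq with h | rfl
      · exact b2 j h b
      · rw [show rs (k + 1) z' = rs (k + 1) z from congrArg Fin.init b1]
        exact h1⟩
  have : ∀ v, ∃ u : Fin (k + 2) → A, v ∈ S (k + 1) ∧ key S k v < key S k (rs (k + 1) z) →
      Fin.init u = v ∧ u ∈ S (k + 2) ∧ key S (k + 1) u < key S (k + 1) (rs (k + 2) z) := by
    intro v
    by_cases hv : v ∈ S (k + 1) ∧ key S k v < key S k (rs (k + 1) z)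
    swap
    · exact ⟨default, fun h => absurd h hv⟩
    have hv' := key_lt_iff.1 hv.2
    have b1 : life S k (rs (k + 1) z) ≤ life S k v := hv'.elim le_of_lt fun h => h.1.ge
    obtain ⟨u, c1, c2, c3⟩ := exists_child (a1.trans b1)
    refine ⟨u, fun _ => ⟨c1, c2, key_lt_iff.2 ?_⟩⟩
    rcases hv' with h | ⟨h, i, d1, d2⟩
    · exact Or.inl (a2.trans_lt (h.trans_le c3))
    · refine ((a2.trans (b1.trans c3)).lt_or_eq).imp id fun e => ⟨e.symm, i.castSucc,
        fun j hj => ?_, ?_⟩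
      · have := d1 ⟨j, by have := i.2; have : j.1 < i.1 := hj; omega⟩ hj
        rw [← c1] at this
        exact this
      · rw [← c1] at d2
        exact d2
  choose ch hch using this
  exact ncard_le_ncard_of_injOn ch (fun v hv => (hch v hv).2)
    (fun v hv w hw e => by rw [← (hch v hv).1, ← (hch w hw).1, e]) (toFinite _)

end

theorem exists_threads (S : ∀ k, Set (Fin k → A)) :
    ∃ x : ℕ → ℕ → A, ∀ z : ℕ → A, ∃ r : ℕ → ℕ, ∀ k, rs (k + 1) z ∈ S (k + 1) →
      r k < (S (k + 1)).ncard ∧ x (r k) k = z k ∧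
        (rs (k + 2) z ∈ S (k + 2) → r k ≤ r (k + 1)) := by
  classical
  refine ⟨fun i k => if h : ∃ u ∈ S (k + 1), rank S k u = i then h.choose (Fin.last k)
    else default, fun z => ⟨fun k => rank S k (rs (k + 1) z), fun k hk =>
      ⟨rank_lt hk, ?_, rank_mono hk⟩⟩⟩
  have h : ∃ u ∈ S (k + 1), rank S k u = rank S k (rs (k + 1) z) := ⟨_, hk, rfl⟩
  simp only [dif_pos h]
  rw [rank_inj h.choose_spec.1 hk h.choose_spec.2]
  rfl

end Pool.Agent.Lib.MP_60e7f9_lc
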