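import Mathlib
import Pool.Agent.Lib.MP_60e7f9_lc.Coin
import Pool.Agent.Lib.MP_60e7f9_lc.Threads

/-!
If `b` does not tend to infinity then `non(E) ≤ b_b^eq`.
-/

set_option autoImplicit false

namespace Pool.Agent.Lib.MP_60e7f9_lc

open Set Filter MeasureTheory Cardinal

theorem exists_cover_of_lt {X : Set (ℕ → Bool)} (h : #X < nonE) : ∃ K : ℕ → Set (ℕ → Bool),
    (∀ n, IsClosed (K n) ∧ coin (K n) = 0) ∧ X ⊆ ⋃ n, K n := by
  by_contra hc
  exact not_le.2 h (csInf_le' ⟨X, hc, rfl⟩)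

theorem prd_unbounded {b : ℕ → ℕ} (h1 : ∀ k, 1 ≤ b k) (h2 : ∀ᶠ k in atTop, 2 ≤ b k) :
    ¬ ∃ i h, IsPart i ∧ h ∈ Prd b ∧ ∀ f ∈ Prd b, Rel f i h := by
  rintro ⟨i, h, hi, -, H⟩
  have := H (fun k => if h k = 0 ∧ 2 ≤ b k then 1 else 0) fun k => by
    have := h1 k
    show (if _ then _ else _) < _
    split_ifs with h' <;> omega
  obtain ⟨N, hN⟩ := eventually_atTop.1 h2
  obtain ⟨n, ⟨k, a, -, c⟩, hn⟩ := (this.and (eventually_ge_atTop N)).exists
  have := hN k (hn.trans ((hi.2.id_le n).trans a))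
  beta_reduce at c
  split_ifs at c with h' <;> omega

theorem ncard_avoid_lt {U : Type} [Finite U] {m : ℕ} (hm : 0 < m) (f : (U → Fin m) → ℕ)
    (hf : ∀ θ, f θ < m) : {u | ∀ θ, f θ ≠ θ u}.ncard < m := by
  by_contra hc
  have : Nonempty (Fin m) := ⟨⟨0, hm⟩⟩
  have := Fintype.ofFinite {u | ∀ θ, f θ ≠ θ u}
  obtain ⟨g⟩ := Function.Embedding.nonempty_of_card_le (α := Fin m) (β := {u | ∀ θ, f θ ≠ θ u})
    (by rw [Fintype.card_fin, ← Nat.card_eq_fintype_card]; exact not_lt.1 hc)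
  have hg : Function.Injective fun i => (g i).1 := Subtype.val_injective.comp g.injective
  refine (g ⟨f (Function.invFun fun i => (g i).1), hf _⟩).2 (Function.invFun fun i => (g i).1) ?_
  rw [Function.leftInverse_invFun hg]

theorem bounded_of_lt {b : ℕ → ℕ} (h1 : ∀ k, 1 ≤ b k) (hb : ¬ Tendsto b atTop atTop)
    {F : Set (ℕ → ℕ)} (hF : F ⊆ Prd b) (hc : #F < nonE) :
    ∃ i h, IsPart i ∧ h ∈ Prd b ∧ ∀ f ∈ F, Rel f i h := by
  classical
  obtain ⟨m, hm⟩ : ∃ m, {k | b k = m}.Infinite := by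
    by_contra hcon
    simp only [not_exists, not_infinite] at hcon
    refine hb (tendsto_atTop.2 fun N => ?_)
    rw [← Nat.cofinite_eq_atTop]
    refine ((finite_Iio N).biUnion fun m _ => hcon m).subset fun k hk => ?_
    exact mem_biUnion (x := b k) (not_le.1 (show ¬ N ≤ b k from hk)) rfl
  have hm0 : 0 < m := let ⟨k, hk⟩ := hm.nonempty; hk ▸ h1 k
  obtain ⟨e, he⟩ := exists_injective_nat (Σ k : ℕ, (Fin k → Bool) → Fin m)
  let pos : (Σ k : ℕ, (Fin k → Bool) → Fin m) → ℕ := fun c => (hm.natEmbedding _ (e c)).1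
  have hpos : Function.Injective pos :=
    Subtype.val_injective.comp ((hm.natEmbedding _).injective.comp he)
  have hposb : ∀ c, b (pos c) = m := fun c => (hm.natEmbedding _ (e c)).2
  let S : (ℕ → ℕ) → ∀ k, Set (Fin k → Bool) := fun f k => {u | ∀ θ, f (pos ⟨k, θ⟩) ≠ θ u}
  have hS : ∀ f ∈ F, ∀ k, (S f k).ncard < m := fun f hf k =>
    ncard_avoid_lt hm0 (fun θ => f (pos ⟨k, θ⟩)) fun θ =>
      (hF hf (pos ⟨k, θ⟩)).trans_eq (hposb _)
  choose x hx using fun f => exists_threads (S f)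
  choose K₀ hK₀ hK₀' using fun i => exists_cover_of_lt (X := (fun f => x f i) '' F)
    (mk_image_le.trans_lt hc)
  let K : ℕ → Set (ℕ → Bool) := fun n => ⋃ c ∈ Iio m ×ˢ Iic n, K₀ c.1 c.2
  have hfin : ∀ n : ℕ, (Iio m ×ˢ Iic n).Finite := fun n => (finite_Iio m).prod (finite_Iic n)
  choose t ht y hy using fun n => exists_kill_threads (K := K n)
    ((hfin n).isClosed_biUnion fun c _ => (hK₀ c.1 c.2).1)
    ((measure_biUnion_null_iff (hfin n).countable).2 fun c _ => (hK₀ c.1 c.2).2) m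
  have ha : ∀ p, ∃ a, ∀ k ≥ a, ∀ θ, p ≤ pos ⟨k + 1, θ⟩ := fun p => by
    obtain ⟨a, ha⟩ := (((finite_Iio p).preimage hpos.injOn).image Sigma.fst).bddAbove
    refine ⟨a, fun k hk θ => not_lt.1 fun h' => ?_⟩
    have := ha (mem_image_of_mem Sigma.fst (show (⟨k + 1, θ⟩ : Σ k : ℕ,
      (Fin k → Bool) → Fin m) ∈ pos ⁻¹' Iio p from h'))
    simp only at this
    omega
  have hu : ∀ l p, ∃ p' > p, ∀ k ≤ l, ∀ θ, pos ⟨k + 1, θ⟩ < p' := fun l p => by
    obtain ⟨u, hu⟩ := (finite_range fun c : Σ k : Fin (l + 1), (Fin (k + 1) → Bool) → Fin m =>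
      pos ⟨c.1 + 1, c.2⟩).bddAbove
    exact ⟨max p u + 1, by omega, fun k hk θ => Nat.lt_succ_of_le (le_max_of_le_right
      (hu ⟨⟨⟨k, Nat.lt_succ_of_le hk⟩, θ⟩, rfl⟩))⟩
  choose a ha using ha
  choose u hu hu' using hu
  let i : ℕ → ℕ := fun n => Nat.rec 0 (fun n p => u (t n (a p)) p) n
  have hi : StrictMono i := strictMono_nat_of_lt_succ fun n => hu _ _
  have hex : ∀ p, ∃ n, p < i (n + 1) := fun p => ⟨p, (Nat.lt_succ_self p).trans_le (hi.id_le _)⟩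
  have hidx : ∀ p n, i n ≤ p → p < i (n + 1) → Nat.find (hex p) = n := fun p n c d => by
    rw [Nat.find_eq_iff]
    exact ⟨d, fun l hl => not_lt.2 ((hi.monotone hl).trans c)⟩
  let h : ℕ → ℕ := fun p => if hp : ∃ c, pos c = p then
    hp.choose.2 (rs hp.choose.1 (y (Nat.find (hex p)) (a (i (Nat.find (hex p)))))) else 0
  have hh : ∀ c, h (pos c) =
      c.2 (rs c.1 (y (Nat.find (hex (pos c))) (a (i (Nat.find (hex (pos c))))))) := fun c => by
    have hp : ∃ c', pos c' = pos c := ⟨c, rfl⟩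
    simp only [h, dif_pos hp]
    rw [hpos hp.choose_spec]
  refine ⟨i, h, ⟨rfl, hi⟩, fun p => ?_, fun f hf => ?_⟩
  · by_cases hp : ∃ c, pos c = p
    · obtain ⟨c, rfl⟩ := hp
      rw [hh, hposb]
      exact Fin.is_lt _
    · simp only [h, dif_neg hp]
      exact h1 p
  · have hev : ∀ᶠ n in atTop, ∀ j ∈ Iio m, x f j ∈ K n :=
      (eventually_all_finite (finite_Iio m)).2 fun j hj => by
        obtain ⟨l, hl⟩ := mem_iUnion.1 (hK₀' j ⟨f, hf, rfl⟩)
        exact eventually_atTop.2 ⟨l, fun n hn => mem_biUnion (x := (j, l)) ⟨hj, hn⟩ hl⟩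
    refine hev.mono fun n hn => ?_
    by_contra hcon
    push Not at hcon
    obtain ⟨r, hr⟩ := hx f (y n (a (i n)))
    have hmem : ∀ k, a (i n) ≤ k → k ≤ t n (a (i n)) →
        rs (k + 1) (y n (a (i n))) ∈ S f (k + 1) := fun k c d θ => by
      have c' := ha (i n) k c θ
      have d' : pos ⟨k + 1, θ⟩ < i (n + 1) := hu' _ _ k d θ
      have := hcon _ c' d'
      rwa [hh, hidx _ n c' d'] at this
    obtain ⟨k, c, d, g⟩ := hy n (a (i n)) (x f) r (fun k c d =>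
      ⟨(hr k (hmem k c d.le)).2.2 (hmem (k + 1) (by omega) d), (hr k (hmem k c d.le)).2.1⟩) (by
        have := ((hr _ (hmem _ (ht n _) le_rfl)).1).trans (hS f hf _)
        omega)
    exact g (hn _ (((hr k (hmem k c d)).1).trans (hS f hf _)))

theorem nonE_le_bEq {b : ℕ → ℕ} (h1 : ∀ k, 1 ≤ b k) (h2 : ∀ᶠ k in atTop, 2 ≤ b k)
    (hb : ¬ Tendsto b atTop atTop) : nonE ≤ bEq b := by
  refine le_csInf ⟨_, Prd b, subset_rfl, prd_unbounded h1 h2, rfl⟩ ?_
  rintro c ⟨F, a, d, rfl⟩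
  exact not_lt.1 fun h => d (bounded_of_lt h1 hb a h)

end Pool.Agent.Lib.MP_60e7f9_lc
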