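import Mathlib
import Pool.Agent.Lib.MP_60e7f9_lc.ZFC
import Pool.Agent.Lib.MP_60e7f9_lc.Defs2

/-!
If `b` does not tend to infinity then `d_b^eq ≤ cov(E)`.
-/

set_option autoImplicit false

namespace Pool.Agent.Lib.MP_60e7f9_lc

open Set Filter MeasureTheory Cardinal

theorem exists_tukey {b : ℕ → ℕ} (h1 : ∀ k, 1 ≤ b k) (hb : ¬ Tendsto b atTop atTop) :
    ∃ (m : ℕ) (x : (ℕ → ℕ) → ℕ → ℕ → Bool), ∀ K : ℕ → Set (ℕ → Bool),
      (∀ n, IsClosed (K n) ∧ coin (K n) = 0) → ∃ i h, IsPart i ∧ h ∈ Prd b ∧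
        ∀ f ∈ Prd b, (∀ᶠ n in atTop, ∀ j ∈ Iio m, x f j ∈ K n) → Rel f i h := by
  classical
  obtain ⟨m, hm⟩ : ∃ m, {k | b k = m}.Infinite := by
    by_contra hcon
    simp only [not_exists, not_infinite] at hcon
    refine hb (tendsto_atTop.2 fun N => ?_)
    rw [← Nat.cofinite_eq_atTop]
    refine ((finite_Iio N).biUnion fun m _ => hcon m).subset fun k hk => ?_
    exact mem_biUnion (x := b k) (not_le.1 (show ¬ N ≤ b k from hk)) rfl
  have hm0 : 0 < m := let ⟨k, hk⟩ := hm.nonempty; hk ▸ h1 k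
  obtain ⟨e, he⟩ := exists_injective_nat (Σ k : ℕ, (Fin k → Bool) → Fin m)
  let pos : (Σ k : ℕ, (Fin k → Bool) → Fin m) → ℕ := fun c => (hm.natEmbedding _ (e c)).1
  have hpos : Function.Injective pos :=
    Subtype.val_injective.comp ((hm.natEmbedding _).injective.comp he)
  have hposb : ∀ c, b (pos c) = m := fun c => (hm.natEmbedding _ (e c)).2
  let S : (ℕ → ℕ) → ∀ k, Set (Fin k → Bool) := fun f k => {u | ∀ θ, f (pos ⟨k, θ⟩) ≠ θ u}
  have hS : ∀ f ∈ Prd b, ∀ k, (S f k).ncard < m := fun f hf k =>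
    ncard_avoid_lt hm0 (fun θ => f (pos ⟨k, θ⟩)) fun θ =>
      (hf (pos ⟨k, θ⟩)).trans_eq (hposb _)
  choose x hx using fun f => exists_threads (S f)
  refine ⟨m, x, fun K hK => ?_⟩
  choose t ht y hy using fun n => exists_kill_threads (K := K n) (hK n).1 (hK n).2 m
  have ha : ∀ p, ∃ a, ∀ k ≥ a, ∀ θ, p ≤ pos ⟨k + 1, θ⟩ := fun p => by
    obtain ⟨a, ha⟩ := (((finite_Iio p).preimage hpos.injOn).image Sigma.fst).bddAbove
    refine ⟨a, fun k hk θ => not_lt.1 fun h' => ?_⟩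
    have := ha (mem_image_of_mem Sigma.fst (show (⟨k + 1, θ⟩ : Σ k : ℕ,
      (Fin k → Bool) → Fin m) ∈ pos ⁻¹' Iio p from h'))
    simp only at this
    omega
  have hu : ∀ l p, ∃ p' > p, ∀ k ≤ l, ∀ θ, pos ⟨k + 1, θ⟩ < p' := fun l p => by
    obtain ⟨u, hu⟩ := (finite_range fun c : Σ k : Fin (l + 1), (Fin (k + 1) → Bool) → Fin m =>
      pos ⟨c.1 + 1, c.2⟩).bddAbove
    exact ⟨max p u + 1, by omega, fun k hk θ => Nat.lt_succ_of_le (le_max_of_le_right
      (hu ⟨⟨⟨k, Nat.lt_succ_of_le hk⟩, θ⟩, rfl⟩))⟩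
  choose a ha using ha
  choose u hu hu' using hu
  let i : ℕ → ℕ := fun n => Nat.rec 0 (fun n p => u (t n (a p)) p) n
  have hi : StrictMono i := strictMono_nat_of_lt_succ fun n => hu _ _
  have hex : ∀ p, ∃ n, p < i (n + 1) := fun p => ⟨p, (Nat.lt_succ_self p).trans_le (hi.id_le _)⟩
  have hidx : ∀ p n, i n ≤ p → p < i (n + 1) → Nat.find (hex p) = n := fun p n c d => by
    rw [Nat.find_eq_iff]
    exact ⟨d, fun l hl => not_lt.2 ((hi.monotone hl).trans c)⟩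
  let h : ℕ → ℕ := fun p => if hp : ∃ c, pos c = p then
    hp.choose.2 (rs hp.choose.1 (y (Nat.find (hex p)) (a (i (Nat.find (hex p)))))) else 0
  have hh : ∀ c, h (pos c) =
      c.2 (rs c.1 (y (Nat.find (hex (pos c))) (a (i (Nat.find (hex (pos c))))))) := fun c => by
    have hp : ∃ c', pos c' = pos c := ⟨c, rfl⟩
    simp only [h, dif_pos hp]
    rw [hpos hp.choose_spec]
  refine ⟨i, h, ⟨rfl, hi⟩, fun p => ?_, fun f hf hev => ?_⟩
  · by_cases hp : ∃ c, pos c = p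
    · obtain ⟨c, rfl⟩ := hp
      rw [hh, hposb]
      exact Fin.is_lt _
    · simp only [h, dif_neg hp]
      exact h1 p
  · refine hev.mono fun n hn => ?_
    by_contra hcon
    push Not at hcon
    obtain ⟨r, hr⟩ := hx f (y n (a (i n)))
    have hmem : ∀ k, a (i n) ≤ k → k ≤ t n (a (i n)) →
        rs (k + 1) (y n (a (i n))) ∈ S f (k + 1) := fun k c d θ => by
      have c' := ha (i n) k c θ
      have d' : pos ⟨k + 1, θ⟩ < i (n + 1) := hu' _ _ k d θ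
      have := hcon _ c' d'
      rwa [hh, hidx _ n c' d'] at this
    obtain ⟨k, c, d, g⟩ := hy n (a (i n)) (x f) r (fun k c d =>
      ⟨(hr k (hmem k c d.le)).2.2 (hmem (k + 1) (by omega) d), (hr k (hmem k c d.le)).2.1⟩) (by
        have := ((hr _ (hmem _ (ht n _) le_rfl)).1).trans (hS f hf _)
        omega)
    exact g (hn _ (((hr k (hmem k c d)).1).trans (hS f hf _)))

theorem dEq_le_covE {b : ℕ → ℕ} (h1 : ∀ k, 1 ≤ b k) (hb : ¬ Tendsto b atTop atTop) :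
    dEq b ≤ covE := by
  classical
  obtain ⟨m, x, hx⟩ := exists_tukey h1 hb
  refine le_csInf ⟨_, range fun y : ℕ → Bool => {y}, ?_, ?_, rfl⟩ ?_
  · rintro _ ⟨y, rfl⟩
    refine ⟨fun _ => {y}, fun _ => ⟨isClosed_singleton, ?_⟩, subset_iUnion (fun _ => {y}) 0⟩
    obtain ⟨z, hz⟩ : ∃ z : ℕ → ℕ, ∀ j, j ≤ z j ∧ ∃ k > z j, y (z j) = y k := by
      obtain ⟨v, hv⟩ := Finite.exists_infinite_fiber y
      have hv' : (y ⁻¹' {v}).Infinite := infinite_coe_iff.1 hv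
      choose z z1 z2 using hv'.exists_gt
      exact ⟨z, fun j => ⟨(z2 j).le, z (z j), z2 _, (z1 j).trans (z1 _).symm⟩⟩
    choose z1 w w1 w2 using hz
    refine measure_mono_null ?_ (null_pairs (m := z) (n := w) (N := 0) fun j _ => ⟨z1 j, w1 j⟩)
    rintro _ rfl j -
    exact w2 j
  · exact eq_univ_of_forall fun y => ⟨{y}, ⟨y, rfl⟩, rfl⟩
  rintro _ ⟨C, hC, hU, rfl⟩
  choose! K hK hK' using hC
  have hinf : Infinite C := by
    refine not_finite_iff_infinite.1 fun hf => ?_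
    have h0 : coin (⋃₀ C) = 0 := (measure_sUnion_null_iff (toFinite C).countable).2 fun X hX =>
      measure_mono_null (hK' X hX) (measure_iUnion_null fun n => (hK X hX n).2)
    rw [hU, measure_univ] at h0
    exact one_ne_zero h0
  have hfin : ∀ n : ℕ, ((Set.univ : Set (Fin m)) ×ˢ Iic n).Finite := fun n =>
    finite_univ.prod (finite_Iic n)
  choose i h a c d using fun u : Fin m → C =>
    hx (fun n => ⋃ c ∈ (Set.univ : Set (Fin m)) ×ˢ Iic n, K (u c.1) c.2) fun n =>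
      ⟨(hfin n).isClosed_biUnion fun c _ => (hK _ (u c.1).2 c.2).1,
        (measure_biUnion_null_iff (hfin n).countable).2 fun c _ => (hK _ (u c.1).2 c.2).2⟩
  refine le_trans (b := #(range fun u => (i u, h u))) (csInf_le' ⟨_, ?_, fun f hf => ?_, rfl⟩)
    (mk_range_le.trans ?_)
  · rintro _ ⟨u, rfl⟩
    exact ⟨a u, c u⟩
  · choose X X1 X2 using fun j : Fin m => (hU.symm.subset (mem_univ (x f j)) : x f j ∈ ⋃₀ C)
    refine ⟨_, ⟨fun j => ⟨X j, X1 j⟩, rfl⟩, d _ f hf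
      ((eventually_all_finite (finite_Iio m)).2 fun j hj => ?_)⟩
    obtain ⟨l, hl⟩ := mem_iUnion.1 (hK' _ (X1 ⟨j, hj⟩) (X2 ⟨j, hj⟩))
    exact eventually_atTop.2 ⟨l, fun n hn => mem_biUnion (x := (⟨j, hj⟩, l)) ⟨trivial, hn⟩ hl⟩
  · rw [← power_def, mk_fin]
    exact (power_nat_le (aleph0_le_mk C))

end Pool.Agent.Lib.MP_60e7f9_lc
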